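import Pool.Agent.MP_13bd65_an.H30.Defs

/-! Facts about the pseudometric, the weak topology and separated sets. -/

namespace Pool.Agent.MP_13bd65_an.H30

open MeasureTheory Set Filter Topology
open scoped ENNReal NNReal BoundedContinuousFunction

variable {G Y : Type} [Group G] [TopologicalSpace G] [TopologicalSpace Y] [MulAction G Y]
  {ρ : Y → Y → ℝ}

omit [TopologicalSpace G] in
theorem IsGenPseudometric.nonneg (h : IsGenPseudometric G ρ) (x y : Y) : 0 ≤ ρ x y := by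
  have h1 := h.2.2.1 x y x
  rw [h.1, h.2.1 y x] at h1
  linarith

/-- The largest distance between translates by elements of `S`. -/
noncomputable def supDist (S : Set G) (ρ : Y → Y → ℝ) (x y : Y) : ℝ :=
  sSup ((fun k : G => ρ (k • x) (k • y)) '' S)

theorem IsGenPseudometric.continuous_supDist [ContinuousSMul G Y] (h : IsGenPseudometric G ρ)
    {S : Set G} (hS : IsCompact S) : Continuous fun z : Y × Y => supDist S ρ z.1 z.2 :=
  hS.continuous_sSup (f := fun (z : Y × Y) (k : G) => ρ (k • z.1) (k • z.2))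
    (h.2.2.2.2.1.comp (f := fun w : (Y × Y) × G => (w.2 • w.1.1, w.2 • w.1.2)) (by fun_prop))

omit [TopologicalSpace G] in
theorem IsGenPseudometric.le_supDist (h : IsGenPseudometric G ρ) {S : Set G} {k : G} (hk : k ∈ S)
    (x y : Y) : ρ (k • x) (k • y) ≤ supDist S ρ x y := by
  obtain ⟨R, hR⟩ := h.2.2.2.1
  exact le_csSup ⟨R, by rintro _ ⟨g, -, rfl⟩; exact hR _ _⟩ ⟨k, hk, rfl⟩

omit [TopologicalSpace G] [TopologicalSpace Y] in
theorem supDist_le {S : Set G} (hS : S.Nonempty) {x y : Y} {c : ℝ}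
    (hc : ∀ k ∈ S, ρ (k • x) (k • y) ≤ c) : supDist S ρ x y ≤ c :=
  csSup_le (hS.image _) (by rintro _ ⟨g, hg, rfl⟩; exact hc g hg)

variable [MeasurableSpace Y] [BorelSpace Y]

theorem IsGenPseudometric.exists_pos [ContinuousSMul G Y] [SecondCountableTopology G]
    [SecondCountableTopology Y] (h : IsGenPseudometric G ρ) (ν : Measure Y)
    [IsProbabilityMeasure ν] (hν : ∀ y, ν ≠ Measure.dirac y)
    (hi : ∀ g : G, MeasurePreserving (fun y => g • y) ν ν) :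
    ∃ κ > 0, ∀ y, κ ≤ ∫ x, ρ x y ∂ν := by
  obtain ⟨R, hR⟩ := h.2.2.2.1
  have hc := h.2.2.2.2.1
  have hb : ∀ x y, ‖ρ x y‖ ≤ R := fun x y => by
    rw [Real.norm_of_nonneg (h.nonneg x y)]
    exact hR x y
  have hint : Integrable (fun z : Y × Y => ρ z.1 z.2) (ν.prod ν) :=
    Integrable.of_bound hc.aestronglyMeasurable R (Eventually.of_forall fun z => hb _ _)
  refine ⟨(∫ z, ρ z.1 z.2 ∂ν.prod ν) / 2, half_pos (lt_of_le_of_ne
    (integral_nonneg fun z => h.nonneg _ _) fun h0 => ?_), fun y => ?_⟩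
  · have h1 := (integral_eq_zero_iff_of_nonneg (fun z => h.nonneg _ _) hint).1 h0.symm
    obtain ⟨D, hD, hD'⟩ := TopologicalSpace.exists_countable_dense G
    have h2 : ∀ᵐ z ∂ν.prod ν, ∀ g ∈ D, ρ (g • z.1) (g • z.2) = 0 :=
      (ae_ball_iff hD).2 fun g _ => ((hi g).prod (hi g)).quasiMeasurePreserving.ae h1
    have h3 : ∀ᵐ z ∂ν.prod ν, z.2 = z.1 := by
      filter_upwards [h2] with z hz
      by_contra h4
      obtain ⟨g, hg⟩ := h.2.2.2.2.2 z.1 z.2 (Ne.symm h4)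
      have h5 : Continuous fun g : G => ρ (g • z.1) (g • z.2) :=
        hc.comp (f := fun g : G => (g • z.1, g • z.2)) (by fun_prop)
      exact hg.ne' (congrFun (Continuous.ext_on hD' h5 continuous_const hz) g)
    obtain ⟨y, hy⟩ := (Measure.ae_ae_of_ae_prod h3).exists
    refine hν y ?_
    have h4 : ν.map id = ν.map fun _ => y := Measure.map_congr hy
    simpa using h4
  · have h1 : Integrable (fun x => ρ x y) ν :=
      Integrable.of_bound (hc.comp (f := fun x => (x, y)) (by fun_prop)).aestronglyMeasurable R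
        (Eventually.of_forall fun z => hb _ _)
    have h2 : ∫ z, ρ z.1 z.2 ∂ν.prod ν ≤ ∫ z : Y × Y, (ρ z.1 y + ρ z.2 y) ∂ν.prod ν :=
      integral_mono hint ((h1.comp_fst ν).add (h1.comp_snd ν)) fun z => by
        have := h.2.2.1 z.1 y z.2
        rwa [h.2.1 y] at this
    rw [integral_add (h1.comp_fst ν) (h1.comp_snd ν), integral_fun_fst (fun x => ρ x y),
      integral_fun_snd (fun x => ρ x y)] at h2
    simp only [probReal_univ, smul_eq_mul, one_mul] at h2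
    linarith

theorem exists_basic_nhds {ν : ProbabilityMeasure Y} {O : Set (ProbabilityMeasure Y)}
    (hO : O ∈ 𝓝 ν) : ∃ (s : Finset (Y →ᵇ ℝ)) (η : ℝ), 0 < η ∧ ∀ P : ProbabilityMeasure Y,
      (∀ ψ ∈ s, |∫ y, ψ y ∂(P : Measure Y) - ∫ y, ψ y ∂(ν : Measure Y)| < η) → P ∈ O := by
  have h1 : (⨅ ψ : Y →ᵇ ℝ, comap (fun P : ProbabilityMeasure Y => ∫ y, ψ y ∂(P : Measure Y))
      (𝓝 (∫ y, ψ y ∂(ν : Measure Y)))) ≤ 𝓝 ν :=
    (ProbabilityMeasure.tendsto_iff_forall_integral_tendsto (μs := id)).2 fun ψ =>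
      tendsto_iInf' ψ tendsto_comap
  obtain ⟨I, hI, V, hV, -, rfl, -⟩ := mem_iInf'.1 (h1 hO)
  have h2 : ∀ ψ : Y →ᵇ ℝ, ∀ᶠ η in 𝓝[>] (0 : ℝ), ∀ P : ProbabilityMeasure Y,
      |∫ y, ψ y ∂(P : Measure Y) - ∫ y, ψ y ∂(ν : Measure Y)| < η → P ∈ V ψ := fun ψ => by
    obtain ⟨W, hW, hW'⟩ := mem_comap.1 (hV ψ)
    obtain ⟨η, hη, h3⟩ := Metric.mem_nhds_iff.1 hW
    filter_upwards [Ioo_mem_nhdsGT hη] with a ha P hP
    exact hW' (h3 (hP.trans ha.2))
  obtain ⟨η, h3, hη⟩ := (((eventually_all_finite hI).2 fun ψ _ => h2 ψ).and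
    self_mem_nhdsWithin).exists
  exact ⟨hI.toFinset, η, hη, fun P hP => mem_iInter₂.2 fun ψ hψ =>
    h3 ψ hψ P (hP ψ (hI.mem_toFinset.2 hψ))⟩

theorem exists_separated {X A : Type} [MeasurableSpace X] (P : Measure X) [IsFiniteMeasure P]
    {d : A → A → ℝ} {ε : ℝ} (hd : ∀ a b, d a b = d b a) (h0 : ∀ a, d a a ≤ ε) (φ : X → A)
    {S : Set X} {β b : ℝ} (hβ : 0 < β) (hb : b * β ≤ P.real S)
    (hS : ∀ x' ∈ S, P.real {x | x ∈ S ∧ d (φ x) (φ x') ≤ ε} ≤ β) :
    ∃ F : Finset A, (F : Set A) ⊆ φ '' S ∧ ((F : Set A).Pairwise fun a a' => ε < d a a') ∧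
      b ≤ F.card := by
  classical
  by_contra! hn
  obtain ⟨N, hN⟩ := exists_nat_ge b
  obtain ⟨_, ⟨F, h1, h2, rfl⟩, h3⟩ := Set.Finite.exists_maximal
    (s := {m | ∃ F : Finset A, (F : Set A) ⊆ φ '' S ∧
      ((F : Set A).Pairwise fun a a' => ε < d a a') ∧ F.card = m})
    ((finite_le_nat N).subset (by
      rintro _ ⟨F, h1, h2, rfl⟩
      exact_mod_cast (hn F h1 h2).le.trans hN)) ⟨0, ∅, by simp⟩
  have h4 : S ⊆ ⋃ a ∈ F, {x | x ∈ S ∧ d (φ x) a ≤ ε} := fun x hx => by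
    simp only [mem_iUnion, mem_ofPred_eq]
    by_contra! h5
    have h6 : φ x ∉ F := fun h6 => (h5 _ h6 hx).not_ge (h0 _)
    have h7 := h3 (y := F.card + 1) ⟨insert (φ x) F, by
      rw [Finset.coe_insert]
      exact insert_subset ⟨x, hx, rfl⟩ h1, by
      rw [Finset.coe_insert]
      exact h2.insert fun a ha _ => ⟨h5 a ha hx, hd a _ ▸ h5 a ha hx⟩,
      Finset.card_insert_of_notMem h6⟩ (Nat.le_succ _)
    omega
  have h5 := (measureReal_mono (μ := P) h4 (measure_ne_top _ _)).trans (measureReal_biUnion_finset_le F _)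
  have h6 : ∑ a ∈ F, P.real {x | x ∈ S ∧ d (φ x) a ≤ ε} ≤ F.card • β :=
    Finset.sum_le_card_nsmul _ _ _ fun a ha => by
      obtain ⟨x', hx', rfl⟩ := h1 ha
      exact hS x' hx'
  have h7 := mul_lt_mul_of_pos_right (hn F h1 h2) hβ
  rw [nsmul_eq_mul] at h6
  linarith

end Pool.Agent.MP_13bd65_an.H30
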