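import Pool.Agent.MP_13bd65_an.H30.Equiv

/-! Exponentially many separated model maps on every large good local `G`-space. -/

namespace Pool.Agent.MP_13bd65_an.H30

open MeasureTheory ProbabilityTheory Set Filter Topology
open scoped ENNReal NNReal Pointwise BoundedContinuousFunction

theorem eventually_mul_lt (c : ℝ) {d : ℝ} (hd : 0 < d) : ∀ᶠ w in 𝓝[>] (0 : ℝ), c * w < d := by
  have : Tendsto (fun w : ℝ => c * w) (𝓝 0) (𝓝 (c * 0)) := tendsto_id.const_mul c
  rw [mul_zero] at this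
  exact (this.eventually (gt_mem_nhds hd)).filter_mono nhdsWithin_le_nhds

theorem tendsto_exp_neg_mul {c : ℝ} (hc : 0 < c) :
    Tendsto (fun v : ℝ => Real.exp (-(c * v))) atTop (𝓝 0) :=
  Real.tendsto_exp_neg_atTop_nhds_zero.comp (tendsto_id.const_mul_atTop hc)

theorem tendsto_tv (a : ℝ) {t : ℝ} (ht : 0 ≤ t) :
    Tendsto (fun v : ℝ => a * (1 + √(t * v)) / v) atTop (𝓝 0) := by
  have h1 := ((tendsto_inv_atTop_zero (𝕜 := ℝ)).add ((tendsto_inv_atTop_zero.comp
    Real.tendsto_sqrt_atTop).const_mul √t)).const_mul a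
  simp only [mul_zero, add_zero] at h1
  refine h1.congr' ?_
  filter_upwards [eventually_gt_atTop 0] with v hv
  have h2 : 0 < √v := Real.sqrt_pos.2 hv
  rw [Real.sqrt_mul ht, Function.comp, mul_div_assoc, add_div, one_div]
  congr 2
  field_simp
  rw [Real.sq_sqrt hv.le]

variable {G Y : Type} [Group G] [TopologicalSpace G] [IsTopologicalGroup G] [MeasurableSpace G]
  [BorelSpace G] [SecondCountableTopology G] [LocallyCompactSpace G] [T2Space G]
  [TopologicalSpace Y] [SecondCountableTopology Y]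
  [MeasurableSpace Y] [BorelSpace Y] [MulAction G Y] [ContinuousSMul G Y] {ρ : Y → Y → ℝ}
  {lam : Measure G}

theorem IsPoisson.measurePreserving [lam.IsHaarMeasure] {t : ℝ≥0} {μ : Measure (Measure G)}
    (hμ : IsPoisson (t • lam) μ) (g : G) :
    MeasurePreserving (Measure.map fun h => g * h) μ μ := by
  refine ⟨Measure.measurable_map _ (measurable_const_mul g), ?_⟩
  have h1 := hμ.map (measurable_const_mul g)
  rw [Measure.map_smul, map_mul_left_eq_self] at h1
  exact h1.unique hμ (fun n => (isCompact_compactCovering G n).measurableSet)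
    (compactCovering_subset G) (iUnion_compactCovering G)
    fun n => (isCompact_compactCovering G n).measure_ne_top

theorem core [lam.IsHaarMeasure] [lam.IsMulRightInvariant] {t : ℝ≥0} (ht : 0 < t)
    {μ : Measure (Measure G)} (hμ : IsPoisson (t • lam) μ) {π : Measure G → Y} (hπ : Measurable π)
    (hπ' : ∀ g : G, ∀ᵐ ω ∂μ, π (ω.map fun h => g * h) = g • π ω)
    (hν : ∀ y, μ.map π ≠ Measure.dirac y) (hρ : IsGenPseudometric G ρ) :
    ∃ ε > 0, ∃ c > 0, ∀ (s : Finset (Y →ᵇ ℝ)) (η : ℝ) (_ : 0 < η) (C : Set G) (_ : IsCompact C)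
      (δ : ℝ) (_ : 0 < δ), ∃ Q, IsCompact Q ∧ ∃ γ > 0, ∀ᶠ v : ℝ in atTop, ∀ (M : Type)
        [TopologicalSpace M] [T2Space M] [SecondCountableTopology M] [MeasurableSpace M]
        [BorelSpace M] (α : LocalAction G M) (vol : Measure M) [IsFiniteMeasure vol],
        IsLocalSpace lam α vol → vol univ ≠ 0 → vol.real univ = v →
        ((vol univ)⁻¹ • vol).real (freeSet α Q)ᶜ ≤ γ → ∃ F : Finset (M → Y),
          (∀ φ ∈ F, Measurable φ ∧ (∀ g ∈ C, ∫ p in {p | (g, p) ∈ α.dom},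
            ρ (φ (α.act g p)) (g • φ p) ∂((vol univ)⁻¹ • vol) < δ) ∧
            ∀ ψ ∈ s, |∫ p, ψ (φ p) ∂((vol univ)⁻¹ • vol) - ∫ ω, ψ (π ω) ∂μ| < η) ∧
          ((F : Set (M → Y)).Pairwise fun φ φ' => ε < ∫ p, ρ (φ p) (φ' p) ∂((vol univ)⁻¹ • vol)) ∧
          Real.exp (c * v) / 4 ≤ F.card := by
  have := hμ.1
  have := isInvInvariant_of_unimodular lam
  have : IsProbabilityMeasure (μ.map π) := Measure.isProbabilityMeasure_map hπ.aemeasurable
  have hρc := hρ.2.2.2.2.1
  obtain ⟨R, hR0, hR⟩ : ∃ R > 0, ∀ y y', ρ y y' ≤ R := by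
    obtain ⟨R, hR⟩ := hρ.2.2.2.1
    exact ⟨max R 1, by positivity, fun y y' => (hR y y').trans (le_max_left _ _)⟩
  have hRa : ∀ y y', |ρ y y'| ≤ R := fun y y' => (abs_of_nonneg (hρ.nonneg _ _)).trans_le (hR _ _)
  have hρm : ∀ {X : Type} [MeasurableSpace X] {f g : X → Y}, Measurable f → Measurable g →
      Measurable fun x => ρ (f x) (g x) := fun hf hg => hρc.measurable.comp (hf.prodMk hg)
  have hρi : ∀ {X : Type} [MeasurableSpace X] (P : Measure X) [IsFiniteMeasure P] {f g : X → Y},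
      Measurable f → Measurable g → Integrable (fun x => ρ (f x) (g x)) P :=
    fun P _ _ _ hf hg => integrable_of_abs_le P (hρm hf hg) fun _ => hRa _ _
  have htri : ∀ {X : Type} [MeasurableSpace X] (P : Measure X) [IsFiniteMeasure P]
      {f g h : X → Y}, Measurable f → Measurable g → Measurable h →
      ∫ x, ρ (f x) (h x) ∂P ≤ ∫ x, ρ (g x) (f x) ∂P + ∫ x, ρ (g x) (h x) ∂P :=
    fun P _ f g h hf hg hh => by
      rw [← integral_add (hρi P hg hf) (hρi P hg hh)]
      exact integral_mono (hρi P hf hh) ((hρi P hg hf).add (hρi P hg hh)) fun x => by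
        simpa only [hρ.2.1 (f x) (g x)] using hρ.2.2.1 (f x) (g x) (h x)
  obtain ⟨κ, hκ, hκ'⟩ := hρ.exists_pos (μ.map π) hν fun g => ⟨measurable_const_smul g, by
    rw [Measure.map_map (measurable_const_smul g) hπ]
    conv_rhs => rw [← (hμ.measurePreserving g).map_eq,
      Measure.map_map hπ (hμ.measurePreserving g).measurable]
    exact (Measure.map_congr (hπ' g)).symm⟩
  set a := κ / 10 with ha
  have ha0 : 0 < a := by positivity
  have hKm := fun n => (isCompact_compactCovering G n).measurableSet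
  obtain ⟨n₀, f₀, hf₀, hl₀, hf₀'⟩ := exists_local_approx μ hKm (compactCovering_subset G)
    (iUnion_compactCovering G) hπ hρc hρ.1 hRa ha0
  refine ⟨a, ha0, a ^ 2 / (32 * (t + 1) * R ^ 2 * (lam.real (compactCovering G n₀) + 1) ^ 2),
    by positivity, fun s η hη C hC δ hδ => ?_⟩
  obtain ⟨V, hV, hV1⟩ := exists_compact_mem_nhds (1 : G)
  have hV0 : 0 < lam.real V := ENNReal.toReal_pos
    (Measure.measure_pos_of_mem_nhds lam hV1).ne' hV.measure_ne_top
  have hV1' : (1 : G) ∈ V := mem_of_mem_nhds hV1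
  set S := C * V⁻¹ ∪ V with hSdef
  have hS : IsCompact S := (hC.mul hV.inv).union hV
  have hS1 : (1 : G) ∈ S := Or.inr hV1'
  have hSS1 : (1 : G) ∈ S * S := ⟨1, hS1, 1, hS1, one_mul 1⟩
  set B := 1 + ∑ ψ ∈ s, ‖ψ‖ with hB
  have hB0 : 0 < B := by positivity
  have hBψ : ∀ ψ ∈ s, ∀ y, |ψ y| ≤ B := fun ψ hψ y => by
    have h1 := Finset.single_le_sum (f := fun ψ : Y →ᵇ ℝ => ‖ψ‖) (fun _ _ => norm_nonneg _) hψ
    have h2 := ψ.norm_coe_le_norm y
    rw [Real.norm_eq_abs] at h2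
    linarith
  obtain ⟨w, ⟨⟨⟨⟨⟨w1, w2⟩, w3⟩, w4⟩, w5⟩, w6⟩, hw⟩ := (((((((eventually_mul_lt 1 ha0).and
    (eventually_mul_lt 3 hη)).and (eventually_mul_lt (3 * R) ha0)).and
    (eventually_mul_lt (9 * B) hη)).and (eventually_mul_lt (6 * R) hδ)).and
    (eventually_mul_lt (lam.real S * (2 + 3 * R)) (d := lam.real V * δ / 16) (by positivity))).and
    self_mem_nhdsWithin).exists
  have hsup0 : ∀ y y', ρ y y' ≤ supDist (S * S) ρ y y' := fun y y' => by
    simpa using hρ.le_supDist hSS1 y y'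
  have hsupR : ∀ y y', |supDist (S * S) ρ y y'| ≤ R := fun y y' =>
    (abs_of_nonneg ((hρ.nonneg _ _).trans (hsup0 _ _))).trans_le
      (supDist_le ⟨1, hSS1⟩ fun k _ => hR _ _)
  obtain ⟨n₁, f, hf, hl, hf'⟩ := exists_local_approx μ hKm (compactCovering_subset G)
    (iUnion_compactCovering G) hπ
    (σ := fun y y' => supDist (S * S) ρ y y' + ∑ ψ ∈ s, |ψ y - ψ y'|)
    ((hρ.continuous_supDist (hS.mul hS)).add (by fun_prop)) (fun y => by
      have := supDist_le (ρ := ρ) (x := y) (y := y) (c := 0) ⟨1, hSS1⟩ fun k _ => (hρ.1 _).le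
      have := (hρ.nonneg y y).trans (hsup0 y y)
      simp only [sub_self, abs_zero, Finset.sum_const_zero]
      linarith) (R := R + s.card • (2 * B)) (fun y y' => (abs_add_le _ _).trans (add_le_add
        (hsupR _ _) ((Finset.abs_sum_le_sum_abs _ _).trans (Finset.sum_le_card_nsmul _ _ _
          fun ψ hψ => by
            have := hBψ ψ hψ y
            have := hBψ ψ hψ y'
            rw [abs_abs]
            exact (abs_sub _ _).trans (by linarith))))) hw
  have hψm : ∀ ψ ∈ s, Integrable (fun ω => |ψ (f ω) - ψ (π ω)|) μ := fun ψ hψ =>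
    ((integrable_of_abs_le μ (ψ.continuous.measurable.comp hf) fun _ => hBψ ψ hψ _).sub
      (integrable_of_abs_le μ (ψ.continuous.measurable.comp hπ) fun _ => hBψ ψ hψ _)).abs
  have hσi : Integrable (fun ω => supDist (S * S) ρ (f ω) (π ω)) μ := integrable_of_abs_le μ
    ((hρ.continuous_supDist (hS.mul hS)).measurable.comp (hf.prodMk hπ)) fun _ => hsupR _ _
  rw [integral_add hσi (integrable_finsetSum _ hψm), integral_finsetSum _ hψm] at hf'
  have hf1 : ∫ ω, supDist (S * S) ρ (f ω) (π ω) ∂μ ≤ w := by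
    have : 0 ≤ ∑ ψ ∈ s, ∫ ω, |ψ (f ω) - ψ (π ω)| ∂μ :=
      Finset.sum_nonneg fun ψ _ => integral_nonneg fun _ => abs_nonneg _
    linarith
  have hf2 : ∀ ψ ∈ s, |∫ ω, ψ (f ω) ∂μ - ∫ ω, ψ (π ω) ∂μ| ≤ w := fun ψ hψ => by
    have h1 := Finset.single_le_sum (f := fun ψ : Y →ᵇ ℝ => ∫ ω, |ψ (f ω) - ψ (π ω)| ∂μ)
      (fun ψ _ => integral_nonneg fun _ => abs_nonneg _) hψ
    have h2 : 0 ≤ ∫ ω, supDist (S * S) ρ (f ω) (π ω) ∂μ :=
      integral_nonneg fun _ => (hρ.nonneg _ _).trans (hsup0 _ _)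
    rw [← integral_sub (integrable_of_abs_le μ (f := fun ω => ψ (f ω))
      (ψ.continuous.measurable.comp hf) fun _ => hBψ ψ hψ _) (integrable_of_abs_le μ
      (f := fun ω => ψ (π ω)) (ψ.continuous.measurable.comp hπ) fun _ => hBψ ψ hψ _)]
    exact abs_integral_le_integral_abs.trans (by linarith)
  have hf3 : ∫ ω, ρ (f ω) (f₀ ω) ∂μ ≤ 2 * a := by
    have h1 := htri μ hf hπ hf₀
    have h2 := integral_mono (hρi μ hf hπ) hσi fun ω => hsup0 _ _
    simp only [hρ.2.1 (π _)] at h1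
    linarith
  have hf4 : ∀ y, 9 * a ≤ ∫ ω, ρ (f₀ ω) y ∂μ := fun y => by
    have h1 := htri μ hπ hf₀ (measurable_const (a := y))
    have h2 := hκ' y
    rw [integral_map hπ.aemeasurable (hρm measurable_id' measurable_const).aestronglyMeasurable]
      at h2
    linarith
  set K₀ := compactCovering G n₀ with hK₀
  set K := compactCovering G (max n₀ n₁) with hKdef
  have hK : IsCompact K := isCompact_compactCovering G _
  have hK₀K : K₀ ⊆ K := compactCovering_subset G (le_max_left _ _)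
  replace hl : IsLocal K f := hl.mono (hKm _) (compactCovering_subset G (le_max_right _ _))
  set L := S⁻¹ * K with hLdef
  have hL : IsCompact L := hS.inv.mul hK
  have hSK : ∀ u ∈ S, ∀ g ∈ K, u⁻¹ * g ∈ L := fun u hu g hg => mul_mem_mul (by simpa using hu) hg
  have hKL : K ⊆ L := fun g hg => by simpa using hSK 1 hS1 g hg
  refine ⟨L⁻¹ ∪ L * L⁻¹ ∪ S, (hL.inv.union (hL.mul hL.inv)).union hS, w, hw, ?_⟩
  have lim1 := ((tendsto_exp_neg_mul (c := (η / 3) ^ 2 /
    (32 * (t + 1) * B ^ 2 * (lam.real K + 1) ^ 2)) (by positivity)).const_mul 2).const_mul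
      (s.card : ℝ)
  have lim2 := (tendsto_exp_neg_mul (c := a ^ 2 /
    (32 * (t + 1) * R ^ 2 * (lam.real K + 1) ^ 2)) (by positivity)).const_mul 2
  simp only [mul_zero] at lim1 lim2
  filter_upwards [lim1.eventually (ge_mem_nhds (by norm_num : (0 : ℝ) < 1 / 8)),
    lim2.eventually (ge_mem_nhds (by norm_num : (0 : ℝ) < 1 / 8)),
    (tendsto_tv (2 * lam.real L) t.coe_nonneg).eventually (ge_mem_nhds hw),
    eventually_ge_atTop 1] with v v1 v2 v3 v4 M _ _ _ _ _ α vol _ hα hv hv' hΩ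
  subst hv'
  have : NeZero vol := ⟨Measure.measure_univ_ne_zero.1 hv⟩
  obtain ⟨E, e, hM⟩ := hα.exists_model hL ((hL.inv.union (hL.mul hL.inv)).union hS)
    (fun g hg => Or.inl (Or.inl (by simpa using hg)))
    (fun g hg g' hg' => Or.inl (Or.inr (mul_mem_mul hg' (by simpa using hg))))
  set Ω := freeSet α (L⁻¹ ∪ L * L⁻¹ ∪ S) with hΩdef
  set n := ⌈t * vol.real univ⌉₊ with hn
  have htv : ∀ p ∈ Ω, ∀ (H : Measure G → ℝ) (R : ℝ), Measurable H → IsLocal L H →
      (∀ ω, |H ω| ≤ R) → |∫ x, H (theta E e 1 p x) ∂(Measure.pi fun _ : Fin n =>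
        (vol univ)⁻¹ • vol) - ∫ ω, H ω ∂μ| ≤ R * w := fun p hp H R hH hHl hHR =>
    (hM.tv hv hL.measurableSet ht hμ hp hH hHl hHR).trans
      (mul_le_mul_of_nonneg_left v3 ((abs_nonneg _).trans (hHR 0)))
  have hnv : (n : ℝ) ≤ (t + 1) * vol.real univ := by
    have := Nat.ceil_lt_add_one (a := t * vol.real univ) (by positivity)
    linarith
  have hdual : ∀ {K : Set G}, IsCompact K → ∀ y, ((vol univ)⁻¹ • vol).real
      {p | (p, y) ∈ E ∧ e (p, y) ∈ K} ≤ (lam.real K + 1) / vol.real univ := fun hK y =>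
    (hM.dual_real hK.measurableSet hK.measure_ne_top y).trans (by gcongr; linarith)
  have hP : ∀ g, (((vol univ)⁻¹ • vol).restrict {p | (g, p) ∈ α.dom}).map (α.act' g) ≤
      (vol univ)⁻¹ • vol := fun g => by
    rw [Measure.restrict_smul, Measure.map_smul]
    exact smul_le_smul_left _ (hα.map_act'_le g)
  obtain ⟨P, hPdef⟩ : ∃ P, P = (vol univ)⁻¹ • vol := ⟨_, rfl⟩
  have : IsProbabilityMeasure P := hPdef ▸ inferInstance
  rw [← hPdef] at htv hdual hP hΩ ⊢
  have hv0 : 0 < vol.real univ := by linarith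
  have hθ : ∀ x : Fin n → M, Measurable fun p => theta E e 1 p x := fun x =>
    measurable_theta hM.measE hM.meas measurable_const measurable_id measurable_const
  have A1 := hM.equiv_mean P hμ.measurePreserving htv hΩ hρ hR hS hS.measurableSet
    hS.measure_ne_top hS1 hK.measurableSet hSK hπ hπ' hf hl hf1 (lam.real V * δ / 4)
  have A2 := fun ψ (hψ : ψ ∈ s) => hM.concentration P htv hΩ hK.measurableSet hKL
    (by positivity) hv0 (by positivity) hnv (hdual hK) (H := fun _ ω => ψ (f ω))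
    (ψ.continuous.measurable.comp (hf.comp measurable_snd)) (fun _ ω => by simp only [hl ω]) hB0
    (fun _ _ => hBψ ψ hψ _) (s := η / 3) (by positivity)
  have A3 := hM.concentration P htv hΩ hK.measurableSet hKL
    (by positivity) hv0 (by positivity) hnv (hdual hK) (H := fun _ ω => ρ (f ω) (f₀ ω))
    (hρm (hf.comp measurable_snd) (hf₀.comp measurable_snd))
    (fun _ ω => by simp only [hl ω, hl₀.mono (hKm _) hK₀K ω]) hR0 (fun _ _ => hRa _ _) ha0.le
  simp only [integral_const, probReal_univ, smul_eq_mul, one_mul] at A2 A3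
  set T1 := {x : Fin n → M | lam.real V * δ / 4 ≤ ∫ u in S, ∫ p, supDist S ρ
    (f (theta E e u p x)) (u • f (theta E e 1 p x)) ∂P ∂lam} with hT1
  set T2 := ⋃ ψ ∈ s, {x : Fin n → M | 3 * B * w + η / 3 ≤
    |∫ p, ψ (f (theta E e 1 p x)) ∂P - ∫ ω, ψ (f ω) ∂μ|} with hT2
  set T3 := {x : Fin n → M | 3 * R * w + a ≤
    |∫ p, ρ (f (theta E e 1 p x)) (f₀ (theta E e 1 p x)) ∂P - ∫ ω, ρ (f ω) (f₀ ω) ∂μ|} with hT3
  set Pn := Measure.pi fun _ : Fin n => P with hPn
  have B1 : Pn.real T1 ≤ 1 / 4 := by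
    refine le_of_mul_le_mul_left (A1.trans ?_) (by positivity : 0 < lam.real V * δ / 4)
    linarith
  have B2 : Pn.real T2 ≤ 1 / 8 := by
    refine (measureReal_biUnion_finset_le s _).trans ((Finset.sum_le_card_nsmul _ _ _ A2).trans ?_)
    rwa [nsmul_eq_mul]
  have B3 : Pn.real T3 ≤ 1 / 8 := A3.trans v2
  have B4 : 1 / 2 ≤ Pn.real (T1 ∪ T2 ∪ T3)ᶜ := by
    have e1 := measureReal_union_le (μ := Pn) (T1 ∪ T2 ∪ T3)ᶜ (T1 ∪ T2 ∪ T3)
    have e2 := measureReal_union_le (μ := Pn) (T1 ∪ T2) T3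
    have e3 := measureReal_union_le (μ := Pn) T1 T2
    rw [compl_union_self, probReal_univ] at e1
    linarith
  obtain ⟨F, hF1, hF2, hF3⟩ := exists_separated Pn (d := fun φ φ' : M → Y => ∫ p, ρ (φ p) (φ' p) ∂P)
    (ε := a) (fun φ φ' => by simp only [hρ.2.1 (φ _)]) (fun φ => by simp [hρ.1, ha0.le])
    (fun x p => f (theta E e 1 p x)) (S := (T1 ∪ T2 ∪ T3)ᶜ)
    (β := 2 * Real.exp (-(a ^ 2 / (32 * (t + 1) * R ^ 2 * (lam.real K₀ + 1) ^ 2) * vol.real univ)))
    (b := Real.exp (a ^ 2 / (32 * (t + 1) * R ^ 2 * (lam.real K₀ + 1) ^ 2) * vol.real univ) / 4)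
    (by positivity) (by
      rw [Real.exp_neg]
      refine le_trans (le_of_eq ?_) B4
      field_simp
      norm_num) (fun x' _ => by
      have hφ := hf.comp (hθ x')
      refine le_trans (measureReal_mono (fun x hx => ?_) (measure_ne_top _ _))
        (hM.concentration P htv hΩ (hKm n₀) (hK₀K.trans hKL) (by positivity) hv0 (by positivity)
          hnv (hdual (isCompact_compactCovering G n₀))
          (H := fun p ω => ρ (f₀ ω) (f (theta E e 1 p x')))
          (hρm (hf₀.comp measurable_snd) (hφ.comp measurable_fst))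
          (fun p ω => congrArg (ρ · (f (theta E e 1 p x'))) (hl₀ ω)) hR0 (fun _ _ => hRa _ _)
          ha0.le)
      have e0 : x ∉ T3 := fun h => hx.1 (Or.inr h)
      rw [hT3, mem_ofPred_eq, not_le] at e0
      have e1 := (abs_lt.1 e0).2
      have e2 := htri P (hf₀.comp (hθ x)) (hf.comp (hθ x)) hφ
      have e3 : 9 * a ≤ ∫ p, ∫ ω, ρ (f₀ ω) (f (theta E e 1 p x')) ∂μ ∂P := by
        have := integral_mono (integrable_const (9 * a)) (integrable_of_abs_le P
          (measurable_integral_right μ (f := fun p ω => ρ (f₀ ω) (f (theta E e 1 p x')))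
            (hρm (hf₀.comp measurable_snd) (hφ.comp measurable_fst)))
          fun p => abs_integral_le μ fun ω => hRa _ _) fun p => hf4 _
        simpa using this
      have e4 := hx.2
      simp only [Function.comp] at e2 e4
      rw [mem_ofPred_eq]
      exact le_abs.2 (Or.inr (by linarith)))
  refine ⟨F, fun φ hφ => ?_, hF2, hF3⟩
  obtain ⟨x, hx, rfl⟩ := hF1 hφ
  refine ⟨hf.comp (hθ x), fun g hg => ?_, fun ψ hψ => ?_⟩
  · have e1 := equiv_bound (lam := lam) hρ hR P hP hM.measΩ hS hS.measurableSet hS.measure_ne_top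
      hV.measurableSet subset_union_right hS1 (fun p hp h hh => (hp h (Or.inr hh)).1)
      (Φ := fun u p => f (theta E e u p x)) (hf.comp (measurable_theta hM.measE hM.meas
        measurable_fst measurable_snd measurable_const))
      (fun p hp h hh hp' u hu huh => hl.eq_of_restrict_eq
        (hM.theta_act hp (hp h (Or.inr hh)).1 hp' (hSK u hu) (hSK _ huh) x))
      (g := g) (Or.inl ⟨g, hg, 1, by simpa using hV1', mul_one g⟩)
      (fun h hh => Or.inl (mul_mem_mul hg (by simpa using hh)))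
    have e2 : x ∉ T1 := fun h => hx (Or.inl (Or.inl h))
    rw [hT1, mem_ofPred_eq, not_le] at e2
    have e3 := lt_of_mul_lt_mul_left (a := lam.real V) (c := δ / 2)
      (e1.trans_lt (by linarith)) hV0.le
    have e4 := mul_le_mul_of_nonneg_left hΩ (by positivity : 0 ≤ 3 * R)
    linarith
  · have e0 : ¬3 * B * w + η / 3 ≤ |∫ p, ψ (f (theta E e 1 p x)) ∂P - ∫ ω, ψ (f ω) ∂μ| :=
      fun h => hx (Or.inl (Or.inr (mem_iUnion₂.2 ⟨ψ, hψ, h⟩)))
    have e1 := abs_lt.1 (not_le.1 e0)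
    have e2 := abs_le.1 (hf2 ψ hψ)
    exact abs_lt.2 ⟨by linarith, by linarith⟩

end Pool.Agent.MP_13bd65_an.H30
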