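import Mathlib

/-! Local `G`-spaces, sofic approximations, sofic entropy and Poisson point processes. -/

namespace Pool.Agent.MP_13bd65_an.H30

open MeasureTheory Set Filter Topology
open scoped ENNReal NNReal

/-- A continuous left action `(g, p) ↦ g.p` of `G` on `M` defined on an open set `dom`. -/
structure LocalAction (G M : Type) [Group G] [TopologicalSpace G] [TopologicalSpace M] where
  dom : Set (G × M)
  act : G → M → M
  isOpen_dom : IsOpen dom
  continuousOn_act : ContinuousOn (fun z : G × M => act z.1 z.2) dom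
  one_mem : ∀ p, (1, p) ∈ dom
  one_act : ∀ p, act 1 p = p
  inv_mem : ∀ g p, (g, p) ∈ dom → (g⁻¹, act g p) ∈ dom
  inv_act : ∀ g p, (g, p) ∈ dom → act g⁻¹ (act g p) = p
  assoc : ∀ g h p, (h, p) ∈ dom → (g, act h p) ∈ dom → (g * h, p) ∈ dom →
    act g (act h p) = act (g * h) p

section
variable {G M : Type} [Group G] [TopologicalSpace G] [TopologicalSpace M]

/-- `g ↦ g.p` maps `U` homeomorphically onto an open neighbourhood of `p`. -/
def IsChart (α : LocalAction G M) (U : Set G) (p : M) : Prop :=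
  (∀ g ∈ U, (g, p) ∈ α.dom) ∧ IsOpenEmbedding (fun g : U => α.act g p) ∧ ∃ g ∈ U, α.act g p = p

/-- The set `M[U]`. -/
def goodSet (α : LocalAction G M) (U : Set G) : Set M :=
  {p | (∀ g ∈ U, ∀ h ∈ U, g * h ∈ U → (h, p) ∈ α.dom ∧ (g, α.act h p) ∈ α.dom ∧
      (g * h, p) ∈ α.dom ∧ α.act g (α.act h p) = α.act (g * h) p) ∧ IsChart α U p}

/-- Every point has a chart, and `vol` is Haar measure transported through the charts. -/
def IsLocalSpace [MeasurableSpace G] [MeasurableSpace M] (lam : Measure G) (α : LocalAction G M)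
    (vol : Measure M) : Prop :=
  ∀ p, ∃ O : Set G, IsOpen O ∧ 1 ∈ O ∧ IsChart α O p ∧
    ∀ K ⊆ O, MeasurableSet K → vol ((fun g => α.act g p) '' K) = lam K

end

/-- A sofic approximation: nonempty local `G`-spaces of finite volume that are
`(U i, ε i)`-sofic approximations. -/
def IsSoficApprox {G : Type} [Group G] [TopologicalSpace G] [MeasurableSpace G] (lam : Measure G)
    {M : ℕ → Type} [∀ i, TopologicalSpace (M i)] [∀ i, MeasurableSpace (M i)]
    (α : ∀ i, LocalAction G (M i)) (vol : ∀ i, Measure (M i)) : Prop :=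
  (∀ i, Nonempty (M i) ∧ IsLocalSpace lam (α i) (vol i) ∧ vol i univ < ∞) ∧
  ∃ (U : ℕ → Set G) (ε : ℕ → ℝ), (∀ i, IsOpen (U i) ∧ IsCompact (closure (U i))) ∧ Monotone U ∧
    ⋃ i, U i = univ ∧ Antitone ε ∧ Tendsto ε atTop (𝓝 0) ∧
    ∀ i, ENNReal.ofReal (1 - ε i) * vol i univ ≤ vol i (goodSet (α i) (U i))

section
variable {G M Y : Type} [Group G] [TopologicalSpace G] [TopologicalSpace M] [MeasurableSpace M]
  [MeasurableSpace Y] [MulAction G Y]

/-- The set `Map(M, Y, ρ : U, δ, O)`. -/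
def mapSet (α : LocalAction G M) (vol : Measure M) (ρ : Y → Y → ℝ) (U : Set G) (δ : ℝ)
    (O : Set (ProbabilityMeasure Y)) : Set (M → Y) :=
  {φ | Measurable φ ∧
    (∀ g ∈ U, ∫ p in {p | (g, p) ∈ α.dom}, ρ (φ (α.act g p)) (g • φ p)
      ∂((vol univ)⁻¹ • vol) < δ) ∧
    ∃ P ∈ O, (P : Measure Y) = ((vol univ)⁻¹ • vol).map φ}

/-- The largest size of an `ε`-separated subset of `S`. -/
noncomputable def sep {M Y : Type} [MeasurableSpace M] (vol : Measure M) (ρ : Y → Y → ℝ) (ε : ℝ)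
    (S : Set (M → Y)) : ℝ≥0∞ :=
  ⨆ (F : Finset (M → Y)) (_ : (F : Set (M → Y)) ⊆ S)
    (_ : (F : Set (M → Y)).Pairwise fun φ ψ => ε < ∫ p, ρ (φ p) (ψ p) ∂((vol univ)⁻¹ • vol)),
    (F.card : ℝ≥0∞)

end

/-- The measure `Σ`-entropy of `G ↷ (Y, ν)` computed with the pseudometric `ρ`. -/
noncomputable def entropy {G Y : Type} [Group G] [TopologicalSpace G] [TopologicalSpace Y]
    [MeasurableSpace Y] [OpensMeasurableSpace Y] [MulAction G Y]
    {M : ℕ → Type} [∀ i, TopologicalSpace (M i)] [∀ i, MeasurableSpace (M i)]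
    (α : ∀ i, LocalAction G (M i)) (vol : ∀ i, Measure (M i)) (ν : ProbabilityMeasure Y)
    (ρ : Y → Y → ℝ) : EReal :=
  ⨆ (ε : ℝ) (_ : 0 < ε), ⨅ (O ∈ 𝓝 ν) (U : Set G) (_ : IsOpen U ∧ IsCompact (closure U)) (δ : ℝ)
    (_ : 0 < δ), limsup (fun i => (((vol i univ).toReal⁻¹ : ℝ) : EReal) *
      ENNReal.log (sep (vol i) ρ ε (mapSet (α i) (vol i) ρ U δ O))) atTop

/-- `μ` is the law of a Poisson point process (a random counting measure) of intensity `Λ`. -/
def IsPoisson {Z : Type} [MeasurableSpace Z] (Λ : Measure Z) (μ : Measure (Measure Z)) : Prop :=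
  IsProbabilityMeasure μ ∧ ∀ (k : ℕ) (B : Fin k → Set Z) (n : Fin k → ℕ),
    (∀ j, MeasurableSet (B j)) → (∀ j, Λ (B j) ≠ ∞) → Pairwise (Function.onFun Disjoint B) →
      μ {ω | ∀ j, ω (B j) = n j} =
        ∏ j, ProbabilityTheory.poissonMeasure (Λ (B j)).toNNReal {n j}

/-- A bounded, continuous, dynamically generating pseudometric. -/
def IsGenPseudometric (G : Type) {Y : Type} [Group G] [TopologicalSpace Y] [MulAction G Y]
    (ρ : Y → Y → ℝ) : Prop :=
  (∀ x, ρ x x = 0) ∧ (∀ x y, ρ x y = ρ y x) ∧ (∀ x y z, ρ x z ≤ ρ x y + ρ y z) ∧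
    (∃ R, ∀ x y, ρ x y ≤ R) ∧ Continuous (fun z : Y × Y => ρ z.1 z.2) ∧
    ∀ x y, x ≠ y → ∃ g : G, 0 < ρ (g • x) (g • y)

/-- Completely positive entropy of the translation action on `(Measure G, μ)`: every factor
`π` onto a continuous action on a Polish space `Y` whose measure `ν` is not a point mass has
positive entropy, for every generating pseudometric `ρ`. -/
def HasCPE {G : Type} [Group G] [TopologicalSpace G] [MeasurableSpace G]
    {M : ℕ → Type} [∀ i, TopologicalSpace (M i)] [∀ i, MeasurableSpace (M i)]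
    (α : ∀ i, LocalAction G (M i)) (vol : ∀ i, Measure (M i)) (μ : Measure (Measure G)) : Prop :=
  ∀ (Y : Type) [TopologicalSpace Y] [PolishSpace Y] [MeasurableSpace Y] [BorelSpace Y]
    [MulAction G Y] [ContinuousSMul G Y] (ν : ProbabilityMeasure Y) (π : Measure G → Y)
    (ρ : Y → Y → ℝ), Measurable π → μ.map π = ν →
    (∀ g : G, ∀ᵐ ω ∂μ, π (ω.map fun h => g * h) = g • π ω) →
    (∀ y, (ν : Measure Y) ≠ Measure.dirac y) → IsGenPseudometric G ρ → 0 < entropy α vol ν ρ

end Pool.Agent.MP_13bd65_an.H30
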