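import Pool.Agent.MP_13bd65_an.H30.Model
import Pool.Agent.MP_13bd65_an.H30.Approx

/-! Approximate equivariance of the model maps, uniformly over a compact set. -/

namespace Pool.Agent.MP_13bd65_an.H30

open MeasureTheory ProbabilityTheory Set Filter Topology
open scoped ENNReal NNReal Pointwise

theorem markov_setIntegral {X G : Type} [MeasurableSpace X] [MeasurableSpace G]
    (P : Measure X) [IsProbabilityMeasure P] {lam : Measure G} {S : Set G} (hS : MeasurableSet S)
    (hS' : lam S ≠ ∞) {a : X × G → ℝ} (ha : Measurable a) {R c : ℝ} (h0 : ∀ x u, 0 ≤ a (x, u))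
    (hR : ∀ x u, |a (x, u)| ≤ R) (h : ∀ u ∈ S, ∫ x, a (x, u) ∂P ≤ c) (j : ℝ) :
    j * P.real {x | j ≤ ∫ u in S, a (x, u) ∂lam} ≤ lam.real S * c := by
  have : IsFiniteMeasure (lam.restrict S) := isFiniteMeasure_restrict.2 hS'
  have hi := integrable_of_abs_le (P.prod (lam.restrict S)) ha fun z => hR _ _
  refine (mul_meas_ge_le_integral_of_nonneg (Eventually.of_forall fun x =>
    integral_nonneg fun u => h0 x u) hi.integral_prod_left j).trans ?_
  rw [integral_integral_swap (f := fun x u => a (x, u)) hi, ← smul_eq_mul, ← setIntegral_const]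
  exact setIntegral_mono_on (integrable_of_abs_le _ (measurable_integral_right _
    (f := fun u x => a (x, u)) (ha.comp measurable_swap)) fun u => abs_integral_le _ fun x => hR _ _)
    (integrableOn_const hS') hS h

variable {G M Y : Type} [Group G] [TopologicalSpace G] [IsTopologicalGroup G] [MeasurableSpace G]
  [BorelSpace G] [SecondCountableTopology G] [TopologicalSpace M] [SecondCountableTopology M]
  [MeasurableSpace M] [BorelSpace M] [TopologicalSpace Y] [SecondCountableTopology Y]
  [MeasurableSpace Y] [BorelSpace Y] [MulAction G Y] [ContinuousSMul G Y] {ρ : Y → Y → ℝ}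
  {lam : Measure G} {α : LocalAction G M}

omit [IsTopologicalGroup G] [SecondCountableTopology G] in
theorem integral_act'_le (P : Measure M) [IsFiniteMeasure P] {g : G}
    (hP : (P.restrict {p | (g, p) ∈ α.dom}).map (α.act' g) ≤ P) {w : M → ℝ} (hw : Measurable w)
    {B : ℝ} (h0 : ∀ p, 0 ≤ w p) (hB : ∀ p, |w p| ≤ B) :
    ∫ p, {p | (g, p) ∈ α.dom}.indicator (fun p => w (α.act' g p)) p ∂P ≤ ∫ p, w p ∂P := by
  have hm : Measurable (α.act' g) := α.measurable_act'.comp measurable_prodMk_left
  have hd : MeasurableSet {p | (g, p) ∈ α.dom} :=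
    (α.isOpen_dom.preimage (by fun_prop)).measurableSet
  rw [integral_indicator hd, ← integral_map hm.aemeasurable hw.aestronglyMeasurable]
  exact integral_mono_measure hP (Eventually.of_forall h0) (integrable_of_abs_le P hw hB)

omit [SecondCountableTopology G] in
theorem equiv_bound [lam.IsMulLeftInvariant] [lam.IsInvInvariant] (hρ : IsGenPseudometric G ρ)
    {R : ℝ} (hR : ∀ y y', ρ y y' ≤ R) (P : Measure M) [IsProbabilityMeasure P]
    (hP : ∀ g, (P.restrict {p | (g, p) ∈ α.dom}).map (α.act' g) ≤ P) {Ω : Set M}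
    (hΩ : MeasurableSet Ω) {S V : Set G} (hS : IsCompact S) (hS' : MeasurableSet S)
    (hS'' : lam S ≠ ∞) (hV : MeasurableSet V) (hVS : V ⊆ S) (h1 : 1 ∈ S)
    (hdom : ∀ p ∈ Ω, ∀ h ∈ S, (h, p) ∈ α.dom) {Φ : G → M → Y}
    (hΦ : Measurable fun z : G × M => Φ z.1 z.2)
    (hΦ' : ∀ p ∈ Ω, ∀ h ∈ S, α.act h p ∈ Ω → ∀ u ∈ S, u * h ∈ S → Φ u (α.act h p) = Φ (u * h) p)
    {g : G} (hg : g ∈ S) (hgV : ∀ h ∈ V, g * h⁻¹ ∈ S) :
    lam.real V * (∫ p in {p | (g, p) ∈ α.dom}, ρ (Φ 1 (α.act g p)) (g • Φ 1 p) ∂P -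
      3 * R * P.real Ωᶜ) ≤ 2 * ∫ u in S, ∫ p, supDist S ρ (Φ u p) (u • Φ 1 p) ∂P ∂lam := by
  set b : G → M → ℝ := fun u p => supDist S ρ (Φ u p) (u • Φ 1 p) with hb
  have hbm : Measurable fun z : G × M => b z.1 z.2 :=
    (hρ.continuous_supDist hS).measurable.comp (hΦ.prodMk
      (measurable_fst.smul (hΦ.comp (measurable_const.prodMk measurable_snd))))
  have hb0 : ∀ u p, 0 ≤ b u p := fun u p => (hρ.nonneg _ _).trans (hρ.le_supDist h1 _ _)
  have hbR : ∀ u p, |b u p| ≤ R := fun u p =>
    (abs_of_nonneg (hb0 u p)).trans_le (supDist_le ⟨1, h1⟩ fun k _ => hR _ _)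
  have hR0 : 0 ≤ R := (abs_nonneg _).trans (hbR 1 (P.nonempty_of_neZero).some)
  set c : M → ℝ := Ωᶜ.indicator fun _ => R with hc
  have hcm : Measurable c := measurable_const.indicator hΩ.compl
  have hc0 : ∀ p, 0 ≤ c p := fun p => indicator_nonneg (fun _ _ => hR0) p
  have hcR : ∀ p, |c p| ≤ R := fun p => (abs_of_nonneg (hc0 p)).trans_le
    (indicator_le' (fun _ _ => le_rfl) (fun _ _ => hR0) p)
  have hci : ∫ p, c p ∂P = R * P.real Ωᶜ := by
    rw [integral_indicator_const _ hΩ.compl, smul_eq_mul, mul_comm]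
  have hdm : ∀ g : G, MeasurableSet {p | (g, p) ∈ α.dom} := fun g =>
    (α.isOpen_dom.preimage (by fun_prop)).measurableSet
  have hint : ∀ (g : G) (w : M → ℝ), Measurable w → (∀ p, |w p| ≤ R) →
      Integrable ({p | (g, p) ∈ α.dom}.indicator fun p => w (α.act' g p)) P := fun g w hw hB =>
    (integrable_of_abs_le P (hw.comp (α.measurable_act'.comp measurable_prodMk_left))
      fun p => hB _).indicator (hdm g)
  have hbm' : ∀ u, Measurable (b u) := fun u => hbm.comp measurable_prodMk_left
  have step : ∀ h ∈ V, ∫ p in {p | (g, p) ∈ α.dom}, ρ (Φ 1 (α.act g p)) (g • Φ 1 p) ∂P -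
      3 * R * P.real Ωᶜ ≤ ∫ p, b (g * h⁻¹) p ∂P + ∫ p, b h p ∂P := by
    intro h hh
    have i1 := hint h _ (hbm' (g * h⁻¹)) (hbR _)
    have i2 := hint h _ hcm hcR
    have i3 := hint g _ hcm hcR
    have i4 := integrable_of_abs_le P (hbm' h) (hbR h)
    have i5 := integrable_of_abs_le P hcm hcR
    have e1 := integral_act'_le P (hP h) (hbm' (g * h⁻¹)) (hb0 _) (hbR _)
    have e2 := integral_act'_le P (hP h) hcm hc0 hcR
    have e3 := integral_act'_le P (hP g) hcm hc0 hcR
    have e4 := integral_mono_of_nonneg (μ := P)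
      (f := {p | (g, p) ∈ α.dom}.indicator fun p => ρ (Φ 1 (α.act g p)) (g • Φ 1 p))
      (Eventually.of_forall fun p => indicator_nonneg (fun _ _ => hρ.nonneg _ _) p)
      ((((i1.add i2).add i3).add i4).add i5) (Eventually.of_forall fun p => by
        have n1 : 0 ≤ {p | (h, p) ∈ α.dom}.indicator (fun p => b (g * h⁻¹) (α.act' h p)) p :=
          indicator_nonneg (fun _ _ => hb0 _ _) p
        have n2 : 0 ≤ {p | (h, p) ∈ α.dom}.indicator (fun p => c (α.act' h p)) p :=
          indicator_nonneg (fun _ _ => hc0 _) p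
        have n3 : 0 ≤ {p | (g, p) ∈ α.dom}.indicator (fun p => c (α.act' g p)) p :=
          indicator_nonneg (fun _ _ => hc0 _) p
        have n4 := hb0 h p
        have n5 := hc0 p
        simp only [Pi.add_apply]
        by_cases hgp : (g, p) ∈ α.dom
        swap
        · rw [indicator_of_notMem (s := {p | (g, p) ∈ α.dom}) hgp]
          positivity
        rw [indicator_of_mem (s := {p | (g, p) ∈ α.dom}) hgp]
        have r := hR (Φ 1 (α.act g p)) (g • Φ 1 p)
        by_cases hp : p ∈ Ω
        swap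
        · have : c p = R := indicator_of_mem hp _
          linarith
        have hhp := hdom p hp h (hVS hh)
        rw [indicator_of_mem (s := {p | (g, p) ∈ α.dom}) hgp, α.act'_eq hgp] at n3 ⊢
        rw [indicator_of_mem (s := {p | (h, p) ∈ α.dom}) hhp, α.act'_eq hhp] at n1 n2
        rw [indicator_of_mem (s := {p | (h, p) ∈ α.dom}) hhp,
          indicator_of_mem (s := {p | (h, p) ∈ α.dom}) hhp, α.act'_eq hhp]
        by_cases hp1 : α.act g p ∈ Ω
        swap
        · have : c (α.act g p) = R := indicator_of_mem hp1 _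
          linarith
        by_cases hp2 : α.act h p ∈ Ω
        swap
        · have : c (α.act h p) = R := indicator_of_mem hp2 _
          linarith
        have q1 := hΦ' p hp g hg hp1 1 h1 (by simpa using hg)
        have q2 := hΦ' p hp h (hVS hh) hp2 1 h1 (by simpa using hVS hh)
        have q3 := hΦ' p hp h (hVS hh) hp2 _ (hgV h hh) (by simpa using hg)
        have q4 := hρ.le_supDist h1 (Φ (g * h⁻¹) (α.act h p)) ((g * h⁻¹) • Φ 1 (α.act h p))
        have q5 := hρ.le_supDist (hgV h hh) (Φ h p) (h • Φ 1 p)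
        have q6 := hρ.2.2.1 (Φ g p) ((g * h⁻¹) • Φ h p) (g • Φ 1 p)
        simp only [one_mul, inv_mul_cancel_right, one_smul, smul_smul] at q1 q2 q3 q4 q5
        simp only [hb] at n4 ⊢
        rw [q1]
        rw [q2, q3] at q4 ⊢
        linarith)
    rw [integral_indicator (hdm g), integral_add' (((i1.add i2).add i3).add i4) i5,
      integral_add' ((i1.add i2).add i3) i4, integral_add' (i1.add i2) i3,
      integral_add' i1 i2] at e4
    linarith
  set a : G → ℝ := fun u => ∫ p, b u p ∂P with ha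
  have ham : Measurable a := measurable_integral_right P hbm
  have ha0 : ∀ u, 0 ≤ a u := fun u => integral_nonneg (hb0 u)
  have haR : ∀ u, |a u| ≤ R := fun u => abs_integral_le P (hbR u)
  have hfin : ∀ {W : Set G} {w : G → ℝ}, lam W ≠ ∞ → Measurable w → (∀ u, |w u| ≤ R) →
      IntegrableOn w W lam := fun {W w} hW hw hB => by
    have : IsFiniteMeasure (lam.restrict W) := isFiniteMeasure_restrict.2 hW
    exact integrable_of_abs_le _ hw hB
  have hV' : lam V ≠ ∞ := ne_top_of_le_ne_top hS'' (measure_mono hVS)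
  have hmp := Measure.measurePreserving_div_left lam g
  have ham' : Measurable fun h => a (g / h) := ham.comp hmp.measurable
  have e1 : ∫ h in V, a (g / h) ∂lam ≤ ∫ u in S, a u ∂lam := by
    rw [← hmp.setIntegral_preimage_emb (Homeomorph.divLeft g).measurableEmbedding a S]
    refine setIntegral_mono_set (hfin ?_ ham' fun u => haR _)
      (Eventually.of_forall fun u => ha0 _) (LE.le.eventuallyLE fun h hh => ?_)
    · rwa [hmp.measure_preimage hS'.nullMeasurableSet]
    · simpa [div_eq_mul_inv] using hgV h hh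
  have e2 : ∫ h in V, a h ∂lam ≤ ∫ u in S, a u ∂lam :=
    setIntegral_mono_set (hfin hS'' ham haR) (Eventually.of_forall ha0) hVS.eventuallyLE
  have e3 := setIntegral_mono_on (integrableOn_const hV') ((hfin hV' ham' fun u => haR _).add
    (hfin hV' ham haR)) hV fun h hh => (step h hh).trans_eq (by simp [ha, div_eq_mul_inv])
  rw [setIntegral_const, integral_add' (hfin hV' ham' fun u => haR _) (hfin hV' ham haR),
    smul_eq_mul] at e3
  linarith

omit [SecondCountableTopology M] [BorelSpace M] in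
theorem IsModel.equiv_mean {vol : Measure M} {L : Set G} {Ω : Set M} {E : Set (M × M)}
    {e : M × M → G} (hM : IsModel lam α vol L Ω E e) (P : Measure M)
    [IsProbabilityMeasure P] {μ : Measure (Measure G)} [IsProbabilityMeasure μ]
    (hμ : ∀ g : G, MeasurePreserving (Measure.map fun h => g * h) μ μ) {n : ℕ} {γ : ℝ}
    (htv : ∀ p ∈ Ω, ∀ (H : Measure G → ℝ) (R : ℝ), Measurable H → IsLocal L H → (∀ ω, |H ω| ≤ R) →
      |∫ x, H (theta E e 1 p x) ∂(Measure.pi fun _ : Fin n => P) - ∫ ω, H ω ∂μ| ≤ R * γ)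
    (hΩ : P.real Ωᶜ ≤ γ) (hρ : IsGenPseudometric G ρ) {R : ℝ} (hR : ∀ y y', ρ y y' ≤ R)
    {S K : Set G} (hS : IsCompact S) (hS' : MeasurableSet S) (hS'' : lam S ≠ ∞) (h1 : 1 ∈ S)
    (hK : MeasurableSet K) (hSK : ∀ u ∈ S, ∀ g ∈ K, u⁻¹ * g ∈ L) {π f : Measure G → Y}
    (hπ : Measurable π) (hπ' : ∀ g : G, ∀ᵐ ω ∂μ, π (ω.map fun h => g * h) = g • π ω)
    (hf : Measurable f) (hl : IsLocal K f) {η : ℝ}
    (hη : ∫ ω, supDist (S * S) ρ (f ω) (π ω) ∂μ ≤ η) (j : ℝ) :
    j * (Measure.pi fun _ : Fin n => P).real {x | j ≤ ∫ u in S, ∫ p, supDist S ρ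
      (f (theta E e u p x)) (u • f (theta E e 1 p x)) ∂P ∂lam} ≤
      lam.real S * (2 * η + 3 * R * γ) := by
  have hb : ∀ {T : Set G}, 1 ∈ T → ∀ y y', |supDist T ρ y y'| ≤ R := fun h y y' =>
    (abs_of_nonneg ((hρ.nonneg _ _).trans (hρ.le_supDist h _ _))).trans_le
      (supDist_le ⟨1, h⟩ fun k _ => hR _ _)
  have h2 : (1 : G) ∈ S * S := ⟨1, h1, 1, h1, one_mul 1⟩
  have hR0 : 0 ≤ R := (hρ.nonneg _ _).trans (hR (π 0) (π 0))
  have hm0 : Measurable fun w : ((Fin n → M) × G) × M =>
      supDist S ρ (f (theta E e w.1.2 w.2 w.1.1)) (w.1.2 • f (theta E e 1 w.2 w.1.1)) := by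
    have m1 : Measurable fun w : ((Fin n → M) × G) × M => f (theta E e w.1.2 w.2 w.1.1) :=
      hf.comp (measurable_theta hM.measE hM.meas measurable_fst.snd measurable_snd
        measurable_fst.fst)
    have m2 : Measurable fun w : ((Fin n → M) × G) × M => f (theta E e 1 w.2 w.1.1) :=
      hf.comp (measurable_theta hM.measE hM.meas measurable_const measurable_snd
        measurable_fst.fst)
    exact (hρ.continuous_supDist hS).measurable.comp (m1.prodMk (measurable_fst.snd.smul m2))
  refine markov_setIntegral _ hS' hS'' (measurable_integral_right P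
    (f := fun (z : (Fin n → M) × G) p =>
      supDist S ρ (f (theta E e z.2 p z.1)) (z.2 • f (theta E e 1 p z.1))) hm0) (R := R)
    (fun x u => integral_nonneg fun p => (hρ.nonneg _ _).trans (hρ.le_supDist h1 _ _))
    (fun x u => abs_integral_le P fun p => hb h1 _ _) (fun u hu => ?_) j
  have hu' := measurable_const_mul u
  have hH : Measurable fun ω : Measure G => supDist S ρ (f (ω.map fun h => u * h)) (u • f ω) :=
    (hρ.continuous_supDist hS).measurable.comp
      ((hf.comp (Measure.measurable_map _ hu')).prodMk (hf.const_smul u))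
  have h3 := hM.mean P htv hΩ
    (H := fun _ ω => supDist S ρ (f (ω.map fun h => u * h)) (u • f ω))
    (hH.comp measurable_snd) (fun _ ω => by
      have e1 : f ((ω.restrict L).map fun h => u * h) = f (ω.map fun h => u * h) := by
        refine hl.eq_of_restrict_eq ?_
        rw [Measure.restrict_map hu' hK, Measure.restrict_map hu' hK,
          Measure.restrict_restrict (hu' hK), inter_eq_left.2]
        intro g hg
        simpa using hSK u hu _ hg
      have e2 := hl.mono hK (fun g hg => by simpa using hSK 1 h1 g hg) ω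
      simp only [e1, e2]) hR0 fun _ _ => hb h1 _ _
  simp only [theta_map, integral_const, probReal_univ, smul_eq_mul, one_mul] at h3
  have hσ : Measurable fun ω => supDist (S * S) ρ (f ω) (π ω) :=
    (hρ.continuous_supDist (hS.mul hS)).measurable.comp (hf.prodMk hπ)
  have i1 := integrable_of_abs_le μ hσ fun ω => hb h2 _ _
  have i2 := integrable_of_abs_le μ (hσ.comp (hμ u).measurable) fun ω => hb h2 _ _
  have h4 : ∫ ω, supDist S ρ (f (ω.map fun h => u * h)) (u • f ω) ∂μ ≤ 2 * η := by
    refine (integral_mono_ae (integrable_of_abs_le μ hH fun ω => hb h1 _ _) (i2.add i1) ?_).trans ?_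
    · filter_upwards [hπ' u] with ω hω
      refine supDist_le ⟨1, h1⟩ fun k hk => ?_
      have q1 := hρ.le_supDist (S := S * S) ⟨k, hk, 1, h1, mul_one k⟩
        (f (ω.map fun h => u * h)) (π (ω.map fun h => u * h))
      have q2 := hρ.le_supDist (S := S * S) ⟨k, hk, u, hu, rfl⟩ (f ω) (π ω)
      have q3 := hρ.2.2.1 (k • f (ω.map fun h => u * h)) (k • π (ω.map fun h => u * h))
        (k • u • f ω)
      rw [hρ.2.1, mul_smul, mul_smul, ← hω] at q2
      simp only [Pi.add_apply, Function.comp]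
      linarith
    · rw [integral_add' i2 i1]
      have := integral_map (μ := μ) (hμ u).measurable.aemeasurable hσ.aestronglyMeasurable
      rw [(hμ u).map_eq] at this
      simp only [Function.comp]
      linarith
  linarith [(abs_le.1 h3).2]

end Pool.Agent.MP_13bd65_an.H30
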