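import Pool.Agent.MP_13bd65_an.H30.Defs

/-! Volumes in local `G`-spaces and the chart coordinates of a point seen from another. -/

namespace Pool.Agent.MP_13bd65_an.H30

open MeasureTheory Set Filter Topology
open scoped ENNReal NNReal

theorem local_to_global {X M : Type} [TopologicalSpace X] [SecondCountableTopology X]
    [MeasurableSpace X] [OpensMeasurableSpace X] [MeasurableSpace M] (m : Measure X)
    (vol : Measure M) (T : X → M) {S : Set X} (hS : MeasurableSet S)
    (h : ∀ x ∈ S, ∃ V, IsOpen V ∧ x ∈ V ∧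
      ∀ S' ⊆ V, MeasurableSet S' → MeasurableSet (T '' S') ∧ vol (T '' S') = m S') :
    vol (T '' S) ≤ m S ∧ (InjOn T S → vol (T '' S) = m S) := by
  obtain ⟨C, hC, hC1, hC2⟩ := TopologicalSpace.isOpen_sUnion_countable
    {V | IsOpen V ∧ ∀ S' ⊆ V, MeasurableSet S' → MeasurableSet (T '' S') ∧ vol (T '' S') = m S'}
    (fun V hV => hV.1)
  obtain ⟨f, hf⟩ := (hC.insert ∅).exists_eq_range (insert_nonempty _ _)
  have hf1 : ∀ n, IsOpen (f n) ∧
      ∀ S' ⊆ f n, MeasurableSet S' → MeasurableSet (T '' S') ∧ vol (T '' S') = m S' := fun n => by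
    rcases (hf ▸ mem_range_self n : f n ∈ insert ∅ C) with h1 | h1
    · rw [h1]
      exact ⟨isOpen_empty, fun S' h2 _ => by simp [subset_empty_iff.1 h2]⟩
    · exact hC1 h1
  have hf2 : S = ⋃ n, S ∩ disjointed f n := by
    rw [← inter_iUnion, iUnion_disjointed, ← sUnion_range, ← hf, sUnion_insert, empty_union, hC2]
    refine (inter_eq_left.2 fun x hx => ?_).symm
    obtain ⟨V, h1, h2, h3⟩ := h x hx
    exact ⟨V, ⟨h1, h3⟩, h2⟩
  have hm : ∀ n, MeasurableSet (S ∩ disjointed f n) := fun n =>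
    hS.inter (MeasurableSet.disjointed (fun n => (hf1 n).1.measurableSet) n)
  have h3 := fun n => (hf1 n).2 _ (inter_subset_right.trans (disjointed_subset f n)) (hm n)
  have hd : Pairwise (Function.onFun Disjoint fun n => S ∩ disjointed f n) := fun i j hij =>
    (disjoint_disjointed f hij).mono inter_subset_right inter_subset_right
  have h4 : m S = ∑' n, vol (T '' (S ∩ disjointed f n)) := by
    simp only [fun n => (h3 n).2]
    rw [← measure_iUnion hd hm, ← hf2]
  have h5 : T '' S = ⋃ n, T '' (S ∩ disjointed f n) := by rw [← image_iUnion, ← hf2]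
  rw [h4, h5]
  refine ⟨measure_iUnion_le _, fun hi => measure_iUnion (fun i j hij => ?_) fun n => (h3 n).1⟩
  exact (hd hij).image hi inter_subset_left inter_subset_left

theorem isOpen_forall_compact {X Z : Type} [TopologicalSpace X] [TopologicalSpace Z] {C : Set X}
    (hC : IsCompact C) {W : Set (X × Z)} (hW : IsOpen W) : IsOpen {z | ∀ c ∈ C, (c, z) ∈ W} := by
  refine isOpen_iff_mem_nhds.2 fun z hz => ?_
  exact hC.eventually_forall_of_forall_eventually (P := fun z c => (c, z) ∈ W) fun c hc =>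
    (hW.preimage continuous_swap).mem_nhds (hz c hc)

variable {G M : Type} [Group G] [TopologicalSpace G] [IsTopologicalGroup G] [MeasurableSpace G]
  [BorelSpace G] [SecondCountableTopology G] [TopologicalSpace M] [SecondCountableTopology M]
  [MeasurableSpace M] [BorelSpace M]

theorem isInvInvariant_of_unimodular [LocallyCompactSpace G] (μ : Measure G) [μ.IsHaarMeasure]
    [μ.IsMulRightInvariant] : μ.IsInvInvariant := by
  constructor
  let c : ℝ≥0∞ := Measure.haarScalarFactor μ.inv μ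
  have hc : μ.inv = c • μ := Measure.isMulLeftInvariant_eq_smul μ.inv μ
  have : Measure.map Inv.inv (Measure.map Inv.inv μ) = c ^ 2 • μ := by
    rw [← Measure.inv_def μ, hc, Measure.map_smul, ← Measure.inv_def μ, hc, smul_smul, pow_two]
  have μeq : μ = c ^ 2 • μ := by
    rw [Measure.map_map continuous_inv.measurable continuous_inv.measurable] at this
    simpa only [inv_involutive, Function.Involutive.comp_self, Measure.map_id]
  have K : TopologicalSpace.PositiveCompacts G := Classical.arbitrary _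
  have : c ^ 2 * μ K = 1 ^ 2 * μ K := by
    conv_rhs => rw [μeq]
    simp
  have : c ^ 2 = 1 ^ 2 :=
    (ENNReal.mul_left_inj (Measure.measure_pos_of_nonempty_interior _ K.interior_nonempty).ne'
      K.isCompact.measure_lt_top.ne).1 this
  have : c = 1 := (ENNReal.pow_right_strictMono two_ne_zero).injective this
  rw [hc, this, one_smul]

open Classical in
/-- A measurable extension of the action to all pairs. -/
noncomputable def LocalAction.act' (α : LocalAction G M) (g : G) (p : M) : M :=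
  α.dom.piecewise (fun z => α.act z.1 z.2) Prod.snd (g, p)

omit [IsTopologicalGroup G] [SecondCountableTopology G] in
theorem LocalAction.measurable_act' (α : LocalAction G M) :
    Measurable fun z : G × M => α.act' z.1 z.2 := by
  classical
  exact α.continuousOn_act.measurable_piecewise continuous_snd.continuousOn
    α.isOpen_dom.measurableSet

omit [IsTopologicalGroup G] [MeasurableSpace G] [BorelSpace G] [SecondCountableTopology G]
  [SecondCountableTopology M] [MeasurableSpace M] [BorelSpace M] in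
theorem LocalAction.act'_eq (α : LocalAction G M) {g : G} {p : M} (h : (g, p) ∈ α.dom) :
    α.act' g p = α.act g p := by
  classical
  exact piecewise_eq_of_mem _ _ _ h

omit [IsTopologicalGroup G] [SecondCountableTopology G] [SecondCountableTopology M] in
theorem IsChart.measurableSet_image {α : LocalAction G M} {O : Set G} {p : M} (h : IsChart α O p)
    {K : Set G} (hK : MeasurableSet K) (hKO : K ⊆ O) :
    MeasurableSet ((fun g => α.act g p) '' K) := by
  have := h.2.1.measurableEmbedding.measurableSet_image.2 (measurable_subtype_coe hK)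
  rwa [← image_image (fun g => α.act g p) Subtype.val, Subtype.image_preimage_coe,
    inter_eq_right.2 hKO] at this

variable {lam : Measure G} {α : LocalAction G M} {vol : Measure M}

omit [SecondCountableTopology G] [SecondCountableTopology M] in
theorem IsLocalSpace.local_orbit [lam.IsMulRightInvariant] (h : IsLocalSpace lam α vol) {g₀ : G}
    {p : M} (hg : (g₀, p) ∈ α.dom) : ∃ V, IsOpen V ∧ g₀ ∈ V ∧ ∀ S ⊆ V, MeasurableSet S →
      MeasurableSet ((fun g => α.act g p) '' S) ∧ vol ((fun g => α.act g p) '' S) = lam S := by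
  obtain ⟨O, hO, h1, hc, hv⟩ := h (α.act g₀ p)
  refine ⟨{g | (g, p) ∈ α.dom} ∩ (fun g => g * g₀⁻¹) ⁻¹' O,
    (α.isOpen_dom.preimage (by fun_prop)).inter (hO.preimage (by fun_prop)),
    ⟨hg, by simpa using h1⟩, fun S hS hm => ?_⟩
  have h2 : (fun s => s * g₀) ⁻¹' S ⊆ O := fun s hs => by simpa using (hS hs).2
  have h3 : (fun g => α.act g p) '' S =
      (fun s => α.act s (α.act g₀ p)) '' ((fun s => s * g₀) ⁻¹' S) := by
    ext q
    constructor
    · rintro ⟨g, hg', rfl⟩
      refine ⟨g * g₀⁻¹, by simpa using hg', ?_⟩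
      have := α.assoc (g * g₀⁻¹) g₀ p hg (hc.1 _ (hS hg').2) (by simpa using (hS hg').1)
      simpa using this
    · rintro ⟨s, hs, rfl⟩
      exact ⟨s * g₀, hs, (α.assoc s g₀ p hg (hc.1 _ (h2 hs)) (hS hs).1).symm⟩
  have h4 := measurable_mul_const g₀ hm
  rw [h3, hv _ h2 h4, measure_preimage_mul_right]
  exact ⟨hc.measurableSet_image h4 h2, rfl⟩

omit [SecondCountableTopology M] in
theorem IsLocalSpace.orbit [lam.IsMulRightInvariant] (h : IsLocalSpace lam α vol) {p : M}
    {S : Set G} (hS : MeasurableSet S) (hd : ∀ g ∈ S, (g, p) ∈ α.dom) :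
    vol ((fun g => α.act g p) '' S) ≤ lam S ∧
      (InjOn (fun g => α.act g p) S → vol ((fun g => α.act g p) '' S) = lam S) :=
  local_to_global lam vol _ hS fun g hg => h.local_orbit (hd g hg)

omit [SecondCountableTopology G] in
theorem IsLocalSpace.local_translate [lam.IsMulLeftInvariant] (h : IsLocalSpace lam α vol)
    {g : G} {c : ℝ≥0} (hgc : lam.map (· * g) = c • lam) {q : M} (hg : (g, q) ∈ α.dom) :
    ∃ V, IsOpen V ∧ q ∈ V ∧ ∀ B ⊆ V, MeasurableSet B →
      MeasurableSet (α.act g '' B) ∧ vol (α.act g '' B) = (c • vol) B := by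
  obtain ⟨O, hO, h1, hc, hv⟩ := h q
  obtain ⟨O', hO', h1', hc', hv'⟩ := h (α.act g q)
  have hcont : ContinuousOn (fun s => (g, α.act s q)) O :=
    continuousOn_const.prodMk (α.continuousOn_act.comp (f := fun s => (s, q)) (by fun_prop) hc.1)
  set W := (O ∩ (fun s => (g, α.act s q)) ⁻¹' α.dom) ∩
    ((fun s => (g * s, q)) ⁻¹' α.dom ∩ (fun s => g * s * g⁻¹) ⁻¹' O') with hW
  have hWo : IsOpen W := (hcont.isOpen_inter_preimage hO α.isOpen_dom).inter
    ((α.isOpen_dom.preimage (by fun_prop)).inter (hO'.preimage (by fun_prop)))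
  have hWO : W ⊆ O := fun s hs => hs.1.1
  refine ⟨(fun s => α.act s q) '' W, ?_, ⟨1, ⟨⟨h1, by simpa [α.one_act] using hg⟩,
    by simpa using ⟨hg, h1'⟩⟩, α.one_act q⟩, fun B hB hm => ?_⟩
  · have := hc.2.1.isOpenMap _ (hWo.preimage continuous_subtype_val)
    rwa [← image_image (fun g => α.act g q) Subtype.val, Subtype.image_preimage_coe,
      inter_eq_right.2 hWO] at this
  set S := W ∩ (fun s => α.act' s q) ⁻¹' B with hS
  have hSm : MeasurableSet S :=
    hWo.measurableSet.inter (α.measurable_act'.comp measurable_prodMk_right hm)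
  have hS1 : ∀ s, s ∈ S ↔ s ∈ W ∧ α.act s q ∈ B := fun s =>
    and_congr_right fun hs => by rw [mem_preimage, α.act'_eq (hc.1 s (hWO hs))]
  have h2 : B = (fun s => α.act s q) '' S := by
    ext y
    constructor
    · intro hy
      obtain ⟨s, hs, rfl⟩ := hB hy
      exact ⟨s, (hS1 s).2 ⟨hs, hy⟩, rfl⟩
    · rintro ⟨s, hs, rfl⟩
      exact ((hS1 s).1 hs).2
  have h3 : α.act g '' B = (fun u => α.act u (α.act g q)) ''
      ((fun u => g⁻¹ * u) ⁻¹' ((fun u => u * g) ⁻¹' S)) := by
    rw [h2, image_image, ← image_mul_left, ← image_mul_right', image_image, image_image]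
    refine image_congr fun s hs => ?_
    rw [α.assoc g s q (hc.1 s (hWO hs.1)) hs.1.1.2 hs.1.2.1, ← mul_assoc,
      α.assoc _ g q hg (hc'.1 _ hs.1.2.2) (by simpa using hs.1.2.1), inv_mul_cancel_right]
  have h4 : (fun u => g⁻¹ * u) ⁻¹' ((fun u => u * g) ⁻¹' S) ⊆ O' := fun u hu => by
    simpa [mul_assoc] using hu.1.2.2
  have h5 := measurable_const_mul g⁻¹ (measurable_mul_const g hSm)
  rw [h3, hv' _ h4 h5, measure_preimage_mul, ← Measure.map_apply (measurable_mul_const g) hSm, hgc,
    Measure.smul_apply, Measure.smul_apply, ← hv S (fun s hs => hWO hs.1) hSm, ← h2]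
  exact ⟨hc'.measurableSet_image h5 h4, rfl⟩

omit [SecondCountableTopology G] in
theorem IsLocalSpace.map_act'_le [lam.IsMulLeftInvariant] [lam.IsMulRightInvariant]
    (h : IsLocalSpace lam α vol) (g : G) :
    (vol.restrict {p | (g, p) ∈ α.dom}).map (α.act' g) ≤ vol := by
  have hm : Measurable (α.act' g) := α.measurable_act'.comp measurable_prodMk_left
  refine Measure.le_iff.2 fun B hB => ?_
  rw [Measure.map_apply hm hB, Measure.restrict_apply (hm hB)]
  have h1 : MeasurableSet (B ∩ {q | (g⁻¹, q) ∈ α.dom}) :=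
    hB.inter (α.isOpen_dom.preimage (by fun_prop)).measurableSet
  refine le_trans (measure_mono fun p hp => ?_)
    ((local_to_global vol vol (α.act g⁻¹) h1 fun q hq => by
      simpa only [one_smul] using h.local_translate (c := 1)
        (by rw [map_mul_right_eq_self, one_smul]) hq.2).1.trans
      (measure_mono inter_subset_left))
  exact ⟨α.act g p, ⟨by simpa [α.act'_eq hp.2] using hp.1, α.inv_mem g p hp.2⟩, α.inv_act g p hp.2⟩

omit [IsTopologicalGroup G] [SecondCountableTopology G] [SecondCountableTopology M]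
  [BorelSpace M] in
theorem IsLocalSpace.univ_ne_zero [lam.IsOpenPosMeasure] (h : IsLocalSpace lam α vol)
    [Nonempty M] : vol univ ≠ 0 := by
  obtain ⟨O, hO, h1, -, hv⟩ := h (Classical.arbitrary M)
  exact ((hO.measure_pos lam ⟨1, h1⟩).trans_le
    ((hv O subset_rfl hO.measurableSet).ge.trans (measure_mono (subset_univ _)))).ne'

omit [SecondCountableTopology M] in
theorem IsLocalSpace.le_univ [lam.IsMulRightInvariant] (h : IsLocalSpace lam α vol) {U : Set G}
    (hU : MeasurableSet U) {p : M} (hp : IsChart α U p) : lam U ≤ vol univ :=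
  ((h.orbit hU hp.1).2 fun g hg g' hg' e =>
    congrArg Subtype.val (hp.2.1.injective (a₁ := ⟨g, hg⟩) (a₂ := ⟨g', hg'⟩) e)).ge.trans
    (measure_mono (subset_univ _))

/-- Points at which all of `Q` acts, without fixing the point. -/
def freeSet (α : LocalAction G M) (Q : Set G) : Set M :=
  {p | ∀ u ∈ Q, (u, p) ∈ α.dom ∧ (u ≠ 1 → α.act u p ≠ p)}

omit [IsTopologicalGroup G] [MeasurableSpace G] [BorelSpace G] [SecondCountableTopology G]
  [SecondCountableTopology M] [MeasurableSpace M] [BorelSpace M] in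
theorem goodSet_subset_freeSet {Q W : Set G} (hQ : Q ⊆ W) (h1 : 1 ∈ W) :
    goodSet α W ⊆ freeSet α Q := fun p hp u hu =>
  ⟨hp.2.1 u (hQ hu), fun hu1 e => hu1 (congrArg Subtype.val
    (hp.2.2.1.injective (a₁ := ⟨u, hQ hu⟩) (a₂ := ⟨1, h1⟩) (e.trans (α.one_act p).symm)))⟩

omit [IsTopologicalGroup G] [MeasurableSpace G] [BorelSpace G] [SecondCountableTopology M] in
theorem measurableSet_freeSet [T2Space G] [T2Space M] {Q : Set G} (hQ : IsCompact Q) :
    MeasurableSet (freeSet α Q) := by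
  obtain ⟨f, hf, hf1⟩ := isGδ_iff_eq_iInter_nat.1 (IsGδ.singleton (1 : G))
  have h1 : IsOpen (α.dom ∩ (fun z : G × M => (α.act z.1 z.2, z.2)) ⁻¹' (diagonal M)ᶜ) :=
    (α.continuousOn_act.prodMk continuous_snd.continuousOn).isOpen_inter_preimage α.isOpen_dom
      isClosed_diagonal.isOpen_compl
  have : freeSet α Q = {p | ∀ u ∈ Q, (u, p) ∈ α.dom} ∩ ⋂ n, {p | ∀ u ∈ Q \ f n,
      (u, p) ∈ α.dom ∩ (fun z : G × M => (α.act z.1 z.2, z.2)) ⁻¹' (diagonal M)ᶜ} := by
    ext p
    simp only [mem_inter_iff, mem_iInter, mem_ofPred_eq]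
    constructor
    · refine fun hp => ⟨fun u hu => (hp u hu).1, fun n u hu => ⟨(hp u hu.1).1, (hp u hu.1).2 ?_⟩⟩
      rintro rfl
      exact hu.2 (mem_iInter.1 (hf1 ▸ mem_singleton 1) n)
    · refine fun hp u hu => ⟨hp.1 u hu, fun hu1 => ?_⟩
      obtain ⟨n, hn⟩ : ∃ n, u ∉ f n := by
        by_contra! h2
        exact hu1 (mem_singleton_iff.1 (hf1 ▸ mem_iInter.2 h2))
      exact (hp.2 n u ⟨hu, hn⟩).2
  rw [this]
  exact (isOpen_forall_compact hQ α.isOpen_dom).measurableSet.inter (MeasurableSet.iInter fun n =>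
    (isOpen_forall_compact (hQ.diff (hf n)) h1).measurableSet)

/-- Measurable chart coordinates `e (p, y) ∈ L` with `y = (e (p, y))⁻¹.p`, for `p ∈ Ω`. -/
structure IsModel (lam : Measure G) (α : LocalAction G M) (vol : Measure M) (L : Set G)
    (Ω : Set M) (E : Set (M × M)) (e : M × M → G) : Prop where
  measΩ : MeasurableSet Ω
  measE : MeasurableSet E
  meas : Measurable e
  law : ∀ p ∈ Ω, (vol.restrict (Prod.mk p ⁻¹' E)).map (fun y => e (p, y)) = lam.restrict L
  dual : ∀ y K, MeasurableSet K → vol {p | (p, y) ∈ E ∧ e (p, y) ∈ K} ≤ lam K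
  equiv : ∀ p ∈ Ω, ∀ h, (h, p) ∈ α.dom → α.act h p ∈ Ω → ∀ a ∈ L, h⁻¹ * a ∈ L → ∀ y,
    ((α.act h p, y) ∈ E ∧ e (α.act h p, y) = a ↔ (p, y) ∈ E ∧ e (p, y) = h⁻¹ * a)

theorem IsLocalSpace.exists_model [T2Space G] [T2Space M] [lam.IsMulRightInvariant]
    [lam.IsInvInvariant] (h : IsLocalSpace lam α vol) {L Q : Set G} (hL : IsCompact L)
    (hQ : IsCompact Q) (h1 : ∀ g ∈ L, g⁻¹ ∈ Q) (h2 : ∀ g ∈ L, ∀ g' ∈ L, g' * g⁻¹ ∈ Q) :
    ∃ E e, IsModel lam α vol L (freeSet α Q) E e := by
  classical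
  have hinj : ∀ p ∈ freeSet α Q, InjOn (fun g => α.act g⁻¹ p) L := by
    intro p hp g hg g' hg' he
    by_contra hne
    have h3 := (hp _ (h1 g hg)).1
    have h4 := (hp _ (h1 g' hg')).1
    have h5 := α.inv_mem _ _ h4
    have h6 := α.inv_act _ _ h4
    simp only [inv_inv] at he h5 h6
    refine (hp _ (h2 g hg g' hg')).2 (fun h7 => hne (mul_inv_eq_one.1 h7).symm) ?_
    rw [← α.assoc g' g⁻¹ p h3 (he ▸ h5) (hp _ (h2 g hg g' hg')).1, he, h6]
  let F : Set G → Set (M × M) := fun B => {z | z.1 ∈ freeSet α Q ∧ ∃ g ∈ L ∩ B, α.act g⁻¹ z.1 = z.2}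
  have hF : ∀ B, IsClosed B → MeasurableSet (F B) := fun B hB => by
    have h3 : IsOpen ((fun w : G × M × M => (w.1⁻¹, w.2.1)) ⁻¹' α.dom ∩
        (fun w : G × M × M => (α.act w.1⁻¹ w.2.1, w.2.2)) ⁻¹' (diagonal M)ᶜ) :=
      ((α.continuousOn_act.comp (f := fun w : G × M × M => (w.1⁻¹, w.2.1)) (by fun_prop)
        (mapsTo_preimage _ _)).prodMk (by fun_prop)).isOpen_inter_preimage
        (α.isOpen_dom.preimage (by fun_prop)) isClosed_diagonal.isOpen_compl
    convert (measurable_fst (measurableSet_freeSet (α := α) hQ)).diff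
      (isOpen_forall_compact (hL.inter_right hB) h3).measurableSet using 1
    ext z
    refine and_congr_right fun hz => ?_
    simp only [mem_ofPred_eq, not_forall]
    constructor
    · rintro ⟨g, hg, he⟩
      exact ⟨g, hg, fun h4 => h4.2 he⟩
    · rintro ⟨g, hg, he⟩
      refine ⟨g, hg, ?_⟩
      by_contra h4
      exact he ⟨(hz _ (h1 g hg.1)).1, h4⟩
  let e : M × M → G := fun z => if h : z ∈ F univ then h.2.choose else 1
  have he : ∀ z ∈ F univ, e z ∈ L ∧ α.act (e z)⁻¹ z.1 = z.2 := fun z hz => by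
    simp only [e, dif_pos hz]
    exact ⟨hz.2.choose_spec.1.1, hz.2.choose_spec.2⟩
  have he2 : ∀ p ∈ freeSet α Q, ∀ a ∈ L, ∀ y, (p, y) ∈ F univ ∧ e (p, y) = a ↔ α.act a⁻¹ p = y := by
    intro p hp a ha y
    constructor
    · rintro ⟨h3, rfl⟩
      exact (he _ h3).2
    · intro h3
      have h4 : (p, y) ∈ F univ := ⟨hp, a, ⟨ha, trivial⟩, h3⟩
      exact ⟨h4, hinj p hp (he _ h4).1 ha ((he _ h4).2.trans h3.symm)⟩
  have hme : Measurable e := by
    refine measurable_of_isClosed fun B hB => ?_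
    have : e ⁻¹' B = F B ∪ ((F univ)ᶜ ∩ (fun _ => (1 : G)) ⁻¹' B) := by
      ext z
      by_cases hz : z ∈ F univ
      · simp only [mem_preimage, mem_union, mem_inter_iff, mem_compl_iff, hz, not_true_eq_false,
          false_and, or_false]
        constructor
        · exact fun h3 => ⟨hz.1, e z, ⟨(he z hz).1, h3⟩, (he z hz).2⟩
        · rintro ⟨h3, g, hg, h4⟩
          exact ((he2 z.1 h3 g hg.1 z.2).2 h4).2 ▸ hg.2
      · have h3 : z ∉ F B := fun h3 => hz ⟨h3.1, h3.2.imp fun g hg => ⟨⟨hg.1.1, trivial⟩, hg.2⟩⟩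
        simp [e, hz, h3]
    rw [this]
    exact (hF B hB).union ((hF _ isClosed_univ).compl.inter (measurable_const hB.measurableSet))
  refine ⟨F univ, e, measurableSet_freeSet hQ, hF _ isClosed_univ, hme, fun p hp => ?_,
    fun y K hK => ?_, fun p hp g hg hp' a ha ha' y => ?_⟩
  · ext B hB
    have hm : Measurable fun y => e (p, y) := hme.comp measurable_prodMk_left
    rw [Measure.map_apply hm hB, Measure.restrict_apply (hm hB), Measure.restrict_apply hB,
      ← Measure.measure_inv lam (B ∩ L), ← (h.orbit (p := p) (hB.inter hL.measurableSet).inv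
        fun g hg => (hp _ (inv_inv g ▸ h1 _ hg.2)).1).2 fun g hg g' hg' h3 =>
          inv_injective (hinj p hp hg.2 hg'.2 (by simpa using h3))]
    congr 1
    ext y
    constructor
    · rintro ⟨h3, h4⟩
      exact ⟨(e (p, y))⁻¹, by simpa using ⟨h3, (he _ h4).1⟩, (he _ h4).2⟩
    · rintro ⟨g, hg, h3⟩
      obtain ⟨h4, h5⟩ := (he2 p hp g⁻¹ hg.2 y).2 (by simpa using h3)
      exact ⟨by simpa [h5] using hg.1, h4⟩
  · have h3 : MeasurableSet (K ∩ {g | (g, y) ∈ α.dom}) :=
      hK.inter (α.isOpen_dom.preimage (by fun_prop)).measurableSet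
    refine le_trans (measure_mono fun p hp => ?_)
      ((h.orbit h3 fun g hg => hg.2).1.trans (measure_mono inter_subset_left))
    have h4 := (hp.1.1 _ (h1 _ (he _ hp.1).1)).1
    have h5 := α.inv_mem _ _ h4
    have h6 := α.inv_act _ _ h4
    rw [inv_inv, (he _ hp.1).2] at h5 h6
    exact ⟨e (p, y), ⟨hp.2, h5⟩, h6⟩
  · rw [he2 _ hp' a ha, he2 _ hp _ ha', α.assoc _ _ _ hg (hp' _ (h1 a ha)).1
      (by simpa using (hp _ (h1 _ ha')).1)]
    simp

end Pool.Agent.MP_13bd65_an.H30
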