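import Pool.Agent.MP_13bd65_an.H30.Core

/-! Completely positive entropy holds exactly when the volumes are unbounded. -/

namespace Pool.Agent.MP_13bd65_an.H30

open MeasureTheory ProbabilityTheory Set Filter Topology
open scoped ENNReal NNReal Pointwise BoundedContinuousFunction

variable {G : Type} [Group G] [TopologicalSpace G] [IsTopologicalGroup G] [MeasurableSpace G]
  [BorelSpace G] [SecondCountableTopology G] [LocallyCompactSpace G] [T2Space G]
  {lam : Measure G} {M : ℕ → Type} [∀ i, TopologicalSpace (M i)] [∀ i, T2Space (M i)]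
  [∀ i, SecondCountableTopology (M i)] [∀ i, MeasurableSpace (M i)] [∀ i, BorelSpace (M i)]
  {α : ∀ i, LocalAction G (M i)} {vol : ∀ i, Measure (M i)}

omit [IsTopologicalGroup G] [LocallyCompactSpace G]
  [∀ i, SecondCountableTopology (M i)] in
theorem IsSoficApprox.eventually_free [lam.IsOpenPosMeasure] (h : IsSoficApprox lam α vol)
    {Q : Set G} (hQ : IsCompact Q) {γ : ℝ} (hγ : 0 < γ) :
    ∀ᶠ i in atTop, ((vol i univ)⁻¹ • vol i).real (freeSet (α i) Q)ᶜ ≤ γ := by
  obtain ⟨h1, U, ε, hU, hm, hU', -, hε, hg⟩ := h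
  obtain ⟨j, hj⟩ := (hQ.insert 1).elim_directed_cover U (fun i => (hU i).1)
    (hU' ▸ subset_univ _) hm.directed_le
  filter_upwards [eventually_ge_atTop j, hε.eventually (ge_mem_nhds hγ)] with i hi hε'
  obtain ⟨h2, h3, h4⟩ := h1 i
  have h5 := h3.univ_ne_zero
  have : NeZero (vol i) := ⟨Measure.measure_univ_ne_zero.1 h5⟩
  have : IsFiniteMeasure (vol i) := ⟨h4⟩
  have h6 := (hg i).trans (measure_mono (goodSet_subset_freeSet
    ((subset_insert 1 Q).trans (hj.trans (hm hi))) (hm hi (hj (mem_insert 1 Q)))))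
  have h7 : ENNReal.ofReal (1 - ε i) ≤ ((vol i univ)⁻¹ • vol i) (freeSet (α i) Q) := by
    rw [Measure.smul_apply, smul_eq_mul, mul_comm, ← div_eq_mul_inv,
      ENNReal.le_div_iff_mul_le (Or.inl h5) (Or.inl h4.ne)]
    exact h6
  have h8 := ENNReal.ofReal_le_iff_le_toReal (measure_ne_top _ _) |>.1 h7
  rw [probReal_compl_eq_one_sub (measurableSet_freeSet hQ), measureReal_def]
  linarith

/-- Sofic groups are unimodular. -/
theorem IsSoficApprox.isMulRightInvariant [lam.IsHaarMeasure] (h : IsSoficApprox lam α vol) :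
    lam.IsMulRightInvariant := by
  have key : ∀ g : G, (Measure.modularCharacterFun g : ℝ) ≤ 1 := fun g => by
    set c := Measure.modularCharacterFun g
    refine le_of_forall_pos_le_add fun d hd => ?_
    obtain ⟨i, hi⟩ := (h.eventually_free (isCompact_singleton (x := g)) (γ := d / (c + 1))
      (by positivity)).exists
    obtain ⟨h2, h3, h4⟩ := h.1 i
    have h5 := h3.univ_ne_zero
    have : NeZero (vol i) := ⟨Measure.measure_univ_ne_zero.1 h5⟩
    have hm := measurableSet_freeSet (α := α i) (isCompact_singleton (x := g))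
    have h6 := (local_to_global (c • vol i) (vol i) ((α i).act g) hm fun q hq =>
      h3.local_translate (Measure.map_right_mul_eq_modularCharacterFun_smul lam g)
        (hq g rfl).1).2 fun p hp q hq e => by
          rw [← (α i).inv_act g p (hp g rfl).1, e, (α i).inv_act g q (hq g rfl).1]
    have h7 : ((vol i univ)⁻¹ • vol i).real ((α i).act g '' freeSet (α i) {g}) =
        c * ((vol i univ)⁻¹ • vol i).real (freeSet (α i) {g}) := by
      simp only [measureReal_def, Measure.smul_apply, h6, smul_eq_mul, ENNReal.toReal_mul,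
        ENNReal.smul_def, ENNReal.coe_toReal]
      ring
    have : IsFiniteMeasure (vol i) := ⟨h4⟩
    have h8 := measureReal_le_one (μ := (vol i univ)⁻¹ • vol i)
      (s := (α i).act g '' freeSet (α i) {g})
    rw [probReal_compl_eq_one_sub hm, le_div_iff₀ (by positivity)] at hi
    have h9 := measureReal_le_one (μ := (vol i univ)⁻¹ • vol i) (s := freeSet (α i) {g})
    nlinarith [c.coe_nonneg]
  refine ⟨fun g => ?_⟩
  have h1 := Measure.modularCharacterFun_map_mul g g⁻¹
  rw [mul_inv_cancel, Measure.modularCharacterFun_map_one] at h1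
  have h2 : (1 : ℝ) = Measure.modularCharacterFun g * Measure.modularCharacterFun g⁻¹ := by
    exact_mod_cast h1
  have h3 : Measure.modularCharacterFun g = 1 := by
    refine NNReal.eq (le_antisymm (key g) ?_)
    rw [NNReal.coe_one]
    nlinarith [key g⁻¹, (Measure.modularCharacterFun g).coe_nonneg]
  rw [Measure.map_right_mul_eq_modularCharacterFun_smul, h3, one_smul]

theorem IsSoficApprox.hasCPE [lam.IsHaarMeasure] [lam.IsMulRightInvariant]
    (h : IsSoficApprox lam α vol) (hvol : ∀ C : ℝ, ∃ᶠ i in atTop, C ≤ (vol i univ).toReal)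
    {t : ℝ≥0} (ht : 0 < t) {μ : Measure (Measure G)} (hμ : IsPoisson (t • lam) μ) :
    HasCPE α vol μ := by
  intro Y _ _ _ _ _ _ ν π ρ hπ hν hπ' hν' hρ
  obtain ⟨ε, hε, c, hc, hcore⟩ := core ht hμ hπ hπ' (hν ▸ hν') hρ
  refine lt_of_lt_of_le (EReal.coe_pos.2 (half_pos hc)) (le_iSup₂_of_le ε hε
    (le_iInf₂ fun O hO => le_iInf₂ fun U hU => le_iInf₂ fun δ hδ => ?_))
  obtain ⟨s, η, hη, hs⟩ := exists_basic_nhds hO
  obtain ⟨Q, hQ, γ, hγ, hv⟩ := hcore s η hη _ hU.2 δ hδ
  obtain ⟨v₀, hv₀⟩ := eventually_atTop.1 (hv.and (eventually_ge_atTop (2 * Real.log 4 / c)))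
  refine le_limsup_of_frequently_le (((hvol v₀).and_eventually (h.eventually_free hQ hγ)).mono
    fun i hi => ?_)
  obtain ⟨h2, h3, h4⟩ := h.1 i
  have h5 := h3.univ_ne_zero
  have : NeZero (vol i) := ⟨Measure.measure_univ_ne_zero.1 h5⟩
  have : IsFiniteMeasure (vol i) := ⟨h4⟩
  obtain ⟨h6, h7⟩ := hv₀ _ hi.1
  obtain ⟨F, hF1, hF2, hF3⟩ := h6 (M i) (α i) (vol i) h3 h5 rfl hi.2
  have hv0 : 0 < (vol i univ).toReal := ENNReal.toReal_pos h5 h4.ne
  have h8 : (F.card : ℝ≥0∞) ≤ sep (vol i) ρ ε (mapSet (α i) (vol i) ρ U δ O) := by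
    refine le_iSup_of_le F (le_iSup₂_of_le (fun φ hφ => ?_) hF2 le_rfl)
    obtain ⟨e1, e2, e3⟩ := hF1 φ hφ
    refine ⟨e1, fun g hg => e2 g (subset_closure hg), ⟨_,
      Measure.isProbabilityMeasure_map e1.aemeasurable⟩, hs _ fun ψ hψ => ?_, rfl⟩
    rw [← hν, ProbabilityMeasure.coe_mk, integral_map e1.aemeasurable
      ψ.continuous.aestronglyMeasurable, integral_map hπ.aemeasurable
      ψ.continuous.aestronglyMeasurable]
    exact e3 ψ hψ
  have h9 : ENNReal.ofReal (Real.exp (c * (vol i univ).toReal) / 4) ≤ F.card := by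
    rw [← ENNReal.ofReal_natCast]
    exact ENNReal.ofReal_le_ofReal hF3
  have h10 := ENNReal.log_monotone (h9.trans h8)
  rw [ENNReal.log_ofReal_of_pos (by positivity), Real.log_div (by positivity) (by positivity),
    Real.log_exp] at h10
  refine le_trans ?_ (mul_le_mul_of_nonneg_left h10 (EReal.coe_nonneg.2 (by positivity)))
  rw [← EReal.coe_mul, EReal.coe_le_coe_iff, inv_mul_eq_div, le_div_iff₀ hv0]
  rw [div_le_iff₀ hc] at h7
  linarith

omit [T2Space G] [∀ i, T2Space (M i)] [∀ i, SecondCountableTopology (M i)] in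
theorem IsSoficApprox.unbounded [lam.IsHaarMeasure] [lam.IsMulRightInvariant]
    (h : IsSoficApprox lam α vol) (hG : ¬CompactSpace G) (C : ℝ) :
    ∀ᶠ i in atTop, C ≤ (vol i univ).toReal := by
  have : NoncompactSpace G := not_compactSpace_iff.1 hG
  obtain ⟨h1, U, ε, hU, hm, hU', -, hε, hg⟩ := h
  have h2 := tendsto_measure_iUnion_atTop (μ := lam) hm
  rw [hU', measure_univ_of_isMulLeftInvariant] at h2
  filter_upwards [h2.eventually (lt_mem_nhds (ENNReal.ofReal_lt_top (r := C))),
    hε.eventually (gt_mem_nhds one_pos)] with i hi hε'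
  obtain ⟨h3, h4, h5⟩ := h1 i
  obtain ⟨p, hp⟩ := nonempty_of_measure_ne_zero ((ENNReal.mul_pos
    (ENNReal.ofReal_pos.2 (sub_pos.2 hε')).ne' h4.univ_ne_zero).trans_le (hg i)).ne'
  exact (ENNReal.ofReal_le_iff_le_toReal h5.ne).1
    (hi.le.trans (h4.le_univ (hU i).1.measurableSet hp.2))

omit [LocallyCompactSpace G] in
theorem IsLocalSpace.invariant_bound [CompactSpace G] [lam.IsHaarMeasure] [lam.IsMulRightInvariant]
    {M : Type} [TopologicalSpace M] [T2Space M] [SecondCountableTopology M] [MeasurableSpace M]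
    [BorelSpace M] {α : LocalAction G M} {vol : Measure M} [IsFiniteMeasure vol]
    (h : IsLocalSpace lam α vol) (P : Measure M) [IsProbabilityMeasure P] {A : Set M}
    (hA : MeasurableSet A) (hA' : vol.real A ≤ lam.real univ / 2) {δ : ℝ}
    (hδ : ∀ g, P.real {p | (g, p) ∈ α.dom ∧ p ∈ A ∧ α.act' g p ∉ A} ≤ δ) :
    P.real (A ∩ freeSet α univ) ≤ 2 * δ := by
  set W := {z : G × M | z ∈ α.dom ∧ z.2 ∈ A ∧ α.act' z.1 z.2 ∉ A} with hW
  have hWm : MeasurableSet W :=
    α.isOpen_dom.measurableSet.inter ((measurable_snd hA).inter (α.measurable_act' hA).compl)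
  have hΩ := hA.inter (measurableSet_freeSet (α := α) isCompact_univ)
  have hi : Integrable (W.indicator fun _ => (1 : ℝ)) (lam.prod P) :=
    (integrable_const _).indicator hWm
  have e1 : ∀ g, ∫ p, W.indicator (fun _ => (1 : ℝ)) (g, p) ∂P = P.real (Prod.mk g ⁻¹' W) :=
    fun g => integral_indicator_one (measurable_prodMk_left hWm)
  have e2 : ∀ p, ∫ g, W.indicator (fun _ => (1 : ℝ)) (g, p) ∂lam = lam.real ((·, p) ⁻¹' W) :=
    fun p => integral_indicator_one (measurable_prodMk_right hWm)
  have e3 := integral_mono hi.integral_prod_left (integrable_const δ) fun g =>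
    (e1 g).trans_le (hδ g)
  have e4 := integral_mono ((integrable_const (lam.real univ / 2)).indicator hΩ)
    hi.integral_prod_right fun p => by
      simp only [e2]
      by_cases hp : p ∈ A ∩ freeSet α univ
      swap
      · simp [hp]
      rw [indicator_of_mem hp]
      have hd : ∀ g, (g, p) ∈ α.dom := fun g => (hp.2 g trivial).1
      have hm := (measurable_prodMk_right (y := p) hWm).compl
      have e5 := (h.orbit hm fun g _ => hd g).2 fun g _ g' _ he => by
        by_contra hne
        refine (hp.2 (g'⁻¹ * g) trivial).2 (fun h7 => hne (inv_mul_eq_one.1 h7).symm) ?_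
        simp only at he
        rw [← α.assoc g'⁻¹ g p (hd g) (he ▸ α.inv_mem _ _ (hd g')) (hd _), he,
          α.inv_act _ _ (hd g')]
      have e6 : lam.real ((·, p) ⁻¹' W)ᶜ ≤ vol.real A := by
        rw [measureReal_def, ← e5]
        refine measureReal_mono ?_
        rintro _ ⟨g, hg, rfl⟩
        by_contra h8
        exact hg ⟨hd g, hp.1, by rwa [α.act'_eq (hd g)]⟩
      have e7 := measureReal_add_measureReal_compl (μ := lam) (measurable_prodMk_right (y := p) hWm)
      linarith
  rw [integral_indicator_const _ hΩ, ← integral_integral_swap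
    (f := fun g p => W.indicator (fun _ => (1 : ℝ)) (g, p)) hi] at e4
  have e8 : 0 < lam.real univ :=
    ENNReal.toReal_pos (isOpen_univ.measure_pos lam univ_nonempty).ne' (measure_ne_top _ _)
  simp only [integral_const, smul_eq_mul] at e3 e4
  nlinarith

theorem IsSoficApprox.unbounded_of_hasCPE [lam.IsHaarMeasure] [lam.IsMulRightInvariant]
    (h : IsSoficApprox lam α vol) {t : ℝ≥0} (ht : 0 < t) {μ : Measure (Measure G)}
    (hμ : IsPoisson (t • lam) μ) (hc : HasCPE α vol μ) (C : ℝ) :
    ∃ᶠ i in atTop, C ≤ (vol i univ).toReal := by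
  by_contra hC
  have hG : CompactSpace G := by
    by_contra hG
    exact hC (h.unbounded hG C).frequently
  have := hμ.1
  have hC' : ∀ᶠ i in atTop, (vol i univ).toReal ≤ max C 1 :=
    (not_frequently.1 hC).mono fun i hi => (not_le.1 hi).le.trans (le_max_left _ _)
  have hl : 0 < lam.real univ :=
    ENNReal.toReal_pos (isOpen_univ.measure_pos lam univ_nonempty).ne' (measure_ne_top _ _)
  set r := ((t • lam) univ).toNNReal with hr
  have hr0 : 0 < r := ENNReal.toNNReal_pos (by
    simpa [ht.ne'] using (isOpen_univ.measure_pos lam univ_nonempty).ne') (measure_ne_top _ _)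
  set b := lam.real univ / 2 / max C 1 with hb
  obtain ⟨j, hj⟩ := ((hasSum_one_poissonMeasure r).summable.tendsto_atTop_zero.eventually
    (gt_mem_nhds (by positivity : 0 < min b 1))).exists
  rw [← poissonMeasure_real_singleton] at hj
  set q := (poissonMeasure r).real {j} with hq
  have hq0 : 0 < q := poissonMeasure_real_singleton_pos j hr0
  classical
  let π : Measure G → Bool := fun ω => decide (ω univ = j)
  have hπ1 : π ⁻¹' {true} = {ω : Measure G | ∀ _ : Fin 1, ω univ = j} := by
    ext ω
    simp [π]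
  have hπ : Measurable π :=
    measurable_to_bool (hπ1 ▸ measurableSet_counts (fun _ => MeasurableSet.univ) _)
  have hν : (μ.map π).real {true} = q := by
    rw [map_measureReal_apply hπ (measurableSet_singleton _), hπ1, measureReal_def,
      hμ.2 1 (fun _ => univ) (fun _ => j) (fun _ => MeasurableSet.univ)
        (fun _ => measure_ne_top _ _) (Subsingleton.pairwise), Fin.prod_univ_one]
    rfl
  let _ : MulAction G Bool :=
    { smul := fun _ y => y, one_smul := fun _ => rfl, mul_smul := fun _ _ _ => rfl }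
  have hs : ∀ (g : G) (y : Bool), g • y = y := fun _ _ => rfl
  have : ContinuousSMul G Bool := ⟨continuous_snd⟩
  refine absurd (hc Bool ⟨μ.map π, Measure.isProbabilityMeasure_map hπ.aemeasurable⟩ π
    (fun y y' => if y = y' then 0 else 1) hπ rfl (fun g => Eventually.of_forall fun ω => ?_)
    (fun y hy => ?_) ⟨by simp, by simp, by simp, ⟨1, by simp⟩, continuous_of_discreteTopology,
      fun x y hxy => ⟨1, by simp [hxy]⟩⟩) (not_lt.2 ?_)
  · simp [π, hs, Measure.map_apply (measurable_const_mul g)]
  · rw [ProbabilityMeasure.coe_mk] at hy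
    rw [hy] at hν
    have := (lt_min_iff.1 hj).2
    cases y <;> simp [measureReal_def] at hν <;> linarith
  let ψ : Bool →ᵇ ℝ := BoundedContinuousFunction.mkOfCompact
    ⟨({true} : Set Bool).indicator 1, continuous_of_discreteTopology⟩
  have hψ : ∀ P : Measure Bool, ∫ y, ψ y ∂P = P.real {true} := fun P =>
    integral_indicator_one (measurableSet_singleton _)
  refine iSup₂_le fun ε _ => iInf₂_le_of_le
    ((fun P : ProbabilityMeasure Bool => ∫ y, ψ y ∂(P : Measure Bool)) ⁻¹' Ioo (q / 2) b)
    ((ProbabilityMeasure.continuous_integral_boundedContinuousFunction ψ).continuousAt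
      (Ioo_mem_nhds ?_ ?_)) (iInf₂_le_of_le univ ⟨isOpen_univ, isClosed_closure.isCompact⟩
      (iInf₂_le_of_le (q / 8) (by positivity) (limsup_le_of_le (by isBoundedDefault) ?_)))
  · rw [hψ, ProbabilityMeasure.coe_mk, hν]
    linarith
  · rw [hψ, ProbabilityMeasure.coe_mk, hν]
    exact (lt_min_iff.1 hj).1
  filter_upwards [hC', h.eventually_free isCompact_univ (γ := q / 8) (by positivity)] with i h1 h2
  obtain ⟨h3, h4, h5⟩ := h.1 i
  have h6 := h4.univ_ne_zero
  have : NeZero (vol i) := ⟨Measure.measure_univ_ne_zero.1 h6⟩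
  have : IsFiniteMeasure (vol i) := ⟨h5⟩
  have hv0 : 0 < (vol i univ).toReal := ENNReal.toReal_pos h6 h5.ne
  have key : mapSet (α i) (vol i) (fun y y' : Bool => if y = y' then (0 : ℝ) else 1) univ (q / 8)
      ((fun P : ProbabilityMeasure Bool => ∫ y, ψ y ∂(P : Measure Bool)) ⁻¹' Ioo (q / 2) b) =
      ∅ := by
    refine eq_empty_of_forall_notMem fun φ ⟨e1, e2, P, e3, e4⟩ => ?_
    have hA : MeasurableSet (φ ⁻¹' {true}) := e1 (measurableSet_singleton _)
    rw [mem_preimage, hψ, e4, map_measureReal_apply e1 (measurableSet_singleton _)] at e3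
    have e5 := h4.invariant_bound ((vol i univ)⁻¹ • vol i) hA (δ := q / 8) (by
      have e6 := e3.2
      rw [measureReal_def, Measure.smul_apply, smul_eq_mul, ENNReal.toReal_mul,
        ENNReal.toReal_inv, inv_mul_lt_iff₀ hv0] at e6
      refine e6.le.trans ((mul_le_mul_of_nonneg_right h1 (by positivity)).trans_eq ?_)
      rw [hb]
      field_simp) fun g => by
        refine le_trans ?_ (e2 g trivial).le
        have hd : MeasurableSet {p | (g, p) ∈ (α i).dom} :=
          ((α i).isOpen_dom.preimage (by fun_prop)).measurableSet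
        have hm : Measurable fun p => φ ((α i).act' g p) :=
          e1.comp ((α i).measurable_act'.comp measurable_prodMk_left)
        have hm2 : MeasurableSet {p | (g, p) ∈ (α i).dom ∧ p ∈ φ ⁻¹' {true} ∧
            (α i).act' g p ∉ φ ⁻¹' {true}} :=
          hd.inter (hA.inter (hm (measurableSet_singleton _)).compl)
        rw [← integral_indicator_one hm2, setIntegral_congr_fun hd
          (g := fun p => if φ ((α i).act' g p) = φ p then 0 else 1)
          (fun p hp => by simp only [hs, (α i).act'_eq hp]), ← integral_indicator hd]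
        refine integral_mono ((integrable_const _).indicator hm2) ((integrable_of_abs_le _
          (Measurable.ite (measurableSet_eq_fun hm e1) measurable_const measurable_const) (R := 1)
          fun p => by split_ifs <;> simp).indicator hd) fun p => ?_
        refine indicator_le' (fun p hp => ?_) (fun p _ => indicator_nonneg
          (fun p _ => by split_ifs <;> simp) p) p
        rw [indicator_of_mem (s := {p | (g, p) ∈ (α i).dom}) hp.1,
          if_neg fun e => hp.2.2 (e.trans hp.2.1)]
        rfl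
    have e6 := measureReal_union_le (μ := (vol i univ)⁻¹ • vol i)
      (φ ⁻¹' {true} ∩ freeSet (α i) univ) (freeSet (α i) univ)ᶜ
    have e7 := measureReal_mono (μ := (vol i univ)⁻¹ • vol i) (s₁ := φ ⁻¹' {true})
      (s₂ := φ ⁻¹' {true} ∩ freeSet (α i) univ ∪ (freeSet (α i) univ)ᶜ) (fun p hp => by
        by_cases hp' : p ∈ freeSet (α i) univ
        exacts [Or.inl ⟨hp, hp'⟩, Or.inr hp']) (measure_ne_top _ _)
    linarith [e3.1]
  rw [key]
  simp [sep, EReal.coe_mul_bot_of_pos (inv_pos.2 hv0)]

end Pool.Agent.MP_13bd65_an.H30
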