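import Mathlib

/-! The bounded differences inequality for independent identically distributed variables. -/

namespace Pool.Agent.MP_13bd65_an.H30

open MeasureTheory ProbabilityTheory Set
open scoped ENNReal NNReal

variable {Z : Type} [MeasurableSpace Z]

theorem measurePreserving_cons (P : Measure Z) [SigmaFinite P] (n : ℕ) :
    MeasurePreserving (fun z : Z × (Fin n → Z) => (Fin.cons z.1 z.2 : Fin (n + 1) → Z))
      (P.prod (Measure.pi fun _ : Fin n => P)) (Measure.pi fun _ : Fin (n + 1) => P) := by
  have := (measurePreserving_piFinSuccAbove (fun _ : Fin (n + 1) => P) 0).symm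
  convert this using 1
  funext z
  simp [MeasurableEquiv.piFinSuccAbove_symm_apply, Fin.insertNthEquiv]

theorem integral_cons (P : Measure Z) [IsProbabilityMeasure P] (n : ℕ)
    {F : (Fin (n + 1) → Z) → ℝ} (hF : Measurable F) {B : ℝ} (hB : ∀ x, |F x| ≤ B) :
    ∫ x, F x ∂(Measure.pi fun _ : Fin (n + 1) => P) =
      ∫ y, ∫ a, F (Fin.cons a y) ∂P ∂(Measure.pi fun _ : Fin n => P) := by
  have h := measurePreserving_cons P n
  rw [← h.map_eq, integral_map h.measurable.aemeasurable hF.aestronglyMeasurable]
  exact integral_prod_symm _ (Integrable.of_bound (hF.comp h.measurable).aestronglyMeasurable B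
    (Filter.Eventually.of_forall fun z => hB _))

theorem mgf_bounded_diff (P : Measure Z) [IsProbabilityMeasure P] {c : ℝ} (hc : 0 ≤ c) (t : ℝ) :
    ∀ (n : ℕ) (F : (Fin n → Z) → ℝ) (_ : Measurable F) (B : ℝ) (_ : ∀ x, |F x| ≤ B)
      (_ : ∀ x i a, |F (Function.update x i a) - F x| ≤ c),
      ∫ x, Real.exp (t * F x) ∂(Measure.pi fun _ : Fin n => P) ≤
        Real.exp (t * ∫ x, F x ∂(Measure.pi fun _ : Fin n => P) + n * c ^ 2 * t ^ 2 / 2) := by
  intro n
  induction n with
  | zero =>
    intro F _ _ _ _
    have : F = fun _ => F default := funext fun x => congrArg F (Subsingleton.elim _ _)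
    rw [this]
    simp
  | succ n ih =>
    intro F hF B hB hd
    have hcons := (measurePreserving_cons P n).measurable
    have hsec : ∀ y : Fin n → Z, Measurable fun a => F (Fin.cons a y) := fun y =>
      hF.comp (hcons.comp (measurable_id.prodMk measurable_const))
    have hint : ∀ y : Fin n → Z, Integrable (fun a => F (Fin.cons a y)) P := fun y =>
      Integrable.of_bound (hsec y).aestronglyMeasurable B
        (Filter.Eventually.of_forall fun z => hB _)
    set G : (Fin n → Z) → ℝ := fun y => ∫ a, F (Fin.cons a y) ∂P with hG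
    have hGm : Measurable G :=
      ((hF.comp hcons).stronglyMeasurable.integral_prod_left' (μ := P)).measurable
    have hGB : ∀ y, |G y| ≤ B := fun y => by
      have := norm_integral_le_of_norm_le_const (μ := P) (f := fun a => F (Fin.cons a y)) (C := B)
        (Filter.Eventually.of_forall fun z => hB _)
      simpa using this
    have hGd : ∀ y i b, |G (Function.update y i b) - G y| ≤ c := fun y i b => by
      rw [hG]
      simp only
      rw [← integral_sub (hint _) (hint _)]
      have := norm_integral_le_of_norm_le_const (μ := P)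
        (f := fun a => F (Fin.cons a (Function.update y i b)) - F (Fin.cons a y)) (C := c)
        (Filter.Eventually.of_forall fun a => by
          rw [Fin.cons_update]; exact hd _ _ _)
      simpa using this
    have hexpB : ∀ x, |Real.exp (t * F x)| ≤ Real.exp (|t| * B) := fun x => by
      rw [abs_of_pos (Real.exp_pos _), Real.exp_le_exp]
      exact (le_abs_self _).trans (by rw [abs_mul]; gcongr; exact hB x)
    rw [integral_cons P n (F := fun x => Real.exp (t * F x)) (by fun_prop) hexpB,
      integral_cons P n hF hB]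
    have hstep : ∀ y : Fin n → Z, ∫ a, Real.exp (t * F (Fin.cons a y)) ∂P ≤
        Real.exp (t * G y) * Real.exp (c ^ 2 * t ^ 2 / 2) := by
      intro y
      obtain ⟨a₀⟩ : Nonempty Z := nonempty_of_isProbabilityMeasure P
      have h1 := hasSubgaussianMGF_of_mem_Icc (μ := P) (X := fun a => F (Fin.cons a y))
        (a := F (Fin.cons a₀ y) - c) (b := F (Fin.cons a₀ y) + c) (hsec y).aemeasurable
        (Filter.Eventually.of_forall fun a => by
          have := abs_le.1 (hd (Fin.cons a₀ y) 0 a)
          rw [Fin.update_cons_zero] at this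
          constructor <;> linarith [this.1, this.2])
      have h2 := h1.mgf_le t
      have h3 : ((((‖F (Fin.cons a₀ y) + c - (F (Fin.cons a₀ y) - c)‖₊ / 2) ^ 2 : ℝ≥0)) : ℝ) =
          c ^ 2 := by
        push_cast
        rw [Real.norm_eq_abs, abs_of_nonneg (by linarith)]
        ring
      rw [h3, mgf] at h2
      have h4 : ∫ a, Real.exp (t * F (Fin.cons a y)) ∂P =
          Real.exp (t * G y) * ∫ a, Real.exp (t * (F (Fin.cons a y) - G y)) ∂P := by
        rw [← integral_const_mul]
        congr 1
        funext a
        rw [← Real.exp_add]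
        congr 1
        ring
      rw [h4]
      exact mul_le_mul_of_nonneg_left h2 (Real.exp_pos _).le
    have hGint : Integrable (fun y => Real.exp (t * G y)) (Measure.pi fun _ : Fin n => P) :=
      Integrable.of_bound (by fun_prop : Measurable fun y => Real.exp (t * G y)).aestronglyMeasurable
        (Real.exp (|t| * B)) (Filter.Eventually.of_forall fun y => by
          rw [Real.norm_eq_abs, abs_of_pos (Real.exp_pos _), Real.exp_le_exp]
          exact (le_abs_self _).trans (by rw [abs_mul]; gcongr; exact hGB y))
    calc _ ≤ ∫ y, Real.exp (t * G y) * Real.exp (c ^ 2 * t ^ 2 / 2)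
          ∂(Measure.pi fun _ : Fin n => P) :=
          integral_mono_of_nonneg (Filter.Eventually.of_forall fun y =>
            integral_nonneg fun a => (Real.exp_pos _).le) (hGint.mul_const _)
            (Filter.Eventually.of_forall hstep)
      _ = (∫ y, Real.exp (t * G y) ∂(Measure.pi fun _ : Fin n => P)) *
          Real.exp (c ^ 2 * t ^ 2 / 2) := integral_mul_const _ _
      _ ≤ _ := by
          refine (mul_le_mul_of_nonneg_right (ih G hGm B hGB hGd) (Real.exp_pos _).le).trans_eq ?_
          rw [← Real.exp_add]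
          congr 1
          push_cast
          ring

/-- The bounded differences inequality, upper tail. -/
theorem mcdiarmid (P : Measure Z) [IsProbabilityMeasure P] {c : ℝ} (hc : 0 < c) {n : ℕ}
    {F : (Fin n → Z) → ℝ} (hF : Measurable F) {B : ℝ} (hB : ∀ x, |F x| ≤ B)
    (hd : ∀ x i a, |F (Function.update x i a) - F x| ≤ c) {s N : ℝ} (hs : 0 ≤ s) (hN : 0 < N)
    (hn : (n : ℝ) ≤ N) :
    (Measure.pi fun _ : Fin n => P).real
      {x | ∫ x, F x ∂(Measure.pi fun _ : Fin n => P) + s ≤ F x} ≤
      Real.exp (-(s ^ 2 / (2 * N * c ^ 2))) := by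
  set t := s / (N * c ^ 2) with ht
  have ht0 : 0 ≤ t := by positivity
  have h1 := measure_ge_le_exp_mul_mgf (μ := Measure.pi fun _ : Fin n => P) (X := F)
    (∫ x, F x ∂(Measure.pi fun _ : Fin n => P) + s) ht0
    (Integrable.of_bound (by fun_prop : Measurable fun x => Real.exp (t * F x)).aestronglyMeasurable
      (Real.exp (|t| * B)) (Filter.Eventually.of_forall fun y => by
        rw [Real.norm_eq_abs, abs_of_pos (Real.exp_pos _), Real.exp_le_exp]
        exact (le_abs_self _).trans (by rw [abs_mul]; gcongr; exact hB y)))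
  refine h1.trans ((mul_le_mul_of_nonneg_left (mgf_bounded_diff P hc.le t n F hF B hB hd)
    (Real.exp_pos _).le).trans ?_)
  rw [← Real.exp_add, Real.exp_le_exp]
  have h2 : (n : ℝ) * c ^ 2 * t ^ 2 / 2 ≤ N * c ^ 2 * t ^ 2 / 2 := by gcongr
  have h3 : -t * s + N * c ^ 2 * t ^ 2 / 2 = -(s ^ 2 / (2 * N * c ^ 2)) := by
    rw [ht]; field_simp; ring
  linarith

/-- The bounded differences inequality, lower tail. -/
theorem mcdiarmid_lower (P : Measure Z) [IsProbabilityMeasure P] {c : ℝ} (hc : 0 < c) {n : ℕ}
    {F : (Fin n → Z) → ℝ} (hF : Measurable F) {B : ℝ} (hB : ∀ x, |F x| ≤ B)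
    (hd : ∀ x i a, |F (Function.update x i a) - F x| ≤ c) {s N : ℝ} (hs : 0 ≤ s) (hN : 0 < N)
    (hn : (n : ℝ) ≤ N) :
    (Measure.pi fun _ : Fin n => P).real
      {x | F x ≤ ∫ x, F x ∂(Measure.pi fun _ : Fin n => P) - s} ≤
      Real.exp (-(s ^ 2 / (2 * N * c ^ 2))) := by
  have := mcdiarmid P hc (F := fun x => -F x) hF.neg (B := B) (fun x => by simpa using hB x)
    (fun x i a => by rw [← abs_neg]; simpa [add_comm, sub_eq_add_neg] using hd x i a) hs hN hn
  refine le_trans (measureReal_mono (fun x hx => ?_)) this
  simp only [mem_ofPred_eq] at hx ⊢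
  rw [integral_neg]
  linarith

end Pool.Agent.MP_13bd65_an.H30
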