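import Pool.Agent.MP_13bd65_an.H30.Unique
import Pool.Agent.MP_13bd65_an.H30.McDiarmid

/-! A Poisson number of independent points forms a Poisson process; comparison with a fixed
number of points. -/

namespace Pool.Agent.MP_13bd65_an.H30

open MeasureTheory ProbabilityTheory Set Filter Topology
open scoped ENNReal NNReal Nat

section Multinomial
variable {k : ℕ}

/-- The occupation numbers of a tuple. -/
def cnt {n : ℕ} (y : Fin n → Fin k) : Fin k → ℕ := ∑ l, Pi.single (y l) 1

theorem cnt_cons {n : ℕ} (a : Fin k) (y : Fin n → Fin k) :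
    cnt (Fin.cons a y : Fin (n + 1) → Fin k) = Pi.single a 1 + cnt y := by
  simp [cnt, Fin.sum_univ_succ]

theorem multinomial_term (q : Fin k → ℝ) (a : Fin k) (N : Fin k → ℕ) :
    q a * ∏ i, q i ^ N i / (N i)! =
      ((Pi.single a 1 + N : Fin k → ℕ) a : ℝ) *
        ∏ i, q i ^ (Pi.single a 1 + N : Fin k → ℕ) i / ((Pi.single a 1 + N : Fin k → ℕ) i)! := by
  rw [← Finset.mul_prod_erase _ _ (Finset.mem_univ a),
    ← Finset.mul_prod_erase _ _ (Finset.mem_univ a)]
  have : ∏ i ∈ Finset.univ.erase a, q i ^ (Pi.single a 1 + N : Fin k → ℕ) i /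
      (((Pi.single a 1 + N : Fin k → ℕ) i)! : ℝ) = ∏ i ∈ Finset.univ.erase a, q i ^ N i / (N i)! :=
    Finset.prod_congr rfl fun i hi => by simp [Finset.ne_of_mem_erase hi]
  rw [this]
  simp only [Pi.add_apply, Pi.single_eq_same]
  rw [add_comm 1 (N a), Nat.factorial_succ]
  push_cast
  field_simp
  ring

theorem multinomial_law (q : Measure (Fin k)) [IsProbabilityMeasure q] (n : ℕ) :
    ∀ N : Fin k → ℕ, (Measure.pi fun _ : Fin n => q).real {y | cnt y = N} =
      if ∑ i, N i = n then (n ! : ℝ) * ∏ i, q.real {i} ^ N i / (N i)! else 0 := by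
  induction n with
  | zero =>
    intro N
    by_cases h : N = 0
    · subst h
      simp [cnt]
    · have h1 : ¬ ∑ i, N i = 0 := fun h1 => h (funext fun i =>
        (Finset.sum_eq_zero_iff.1 h1) i (Finset.mem_univ i))
      rw [if_neg h1]
      simp [cnt, Ne.symm h]
  | succ n ih =>
    intro N
    have h := measurePreserving_cons q n
    rw [measureReal_def, ← h.measure_preimage (Set.toFinite _).measurableSet.nullMeasurableSet,
      Measure.prod_apply (Set.toFinite _).measurableSet, lintegral_fintype,
      ENNReal.toReal_sum (fun a _ => by finiteness)]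
    have h2 : ∀ a : Fin k, ((Measure.pi fun _ : Fin n => q) (Prod.mk a ⁻¹'
        ((fun z : Fin k × (Fin n → Fin k) => (Fin.cons z.1 z.2 : Fin (n + 1) → Fin k)) ⁻¹'
          {y | cnt y = N})) * q {a}).toReal =
        if ∑ i, N i = n + 1 then (n ! : ℝ) * (N a * ∏ i, q.real {i} ^ N i / (N i)!) else 0 := by
      intro a
      have h3 : (Prod.mk a ⁻¹' ((fun z : Fin k × (Fin n → Fin k) =>
          (Fin.cons z.1 z.2 : Fin (n + 1) → Fin k)) ⁻¹' {y | cnt y = N})) =
          {y | Pi.single a 1 + cnt y = N} := by
        ext y
        simp [cnt_cons]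
      rw [h3, ENNReal.toReal_mul, ← measureReal_def, ← measureReal_def]
      by_cases ha : N a = 0
      · have : {y : Fin n → Fin k | Pi.single a 1 + cnt y = N} = ∅ := by
          refine eq_empty_of_forall_notMem fun y hy => ?_
          have := congrFun hy a
          simp [ha] at this
        simp [this, ha]
      · obtain ⟨N', rfl⟩ : ∃ N' : Fin k → ℕ, N = Pi.single a 1 + N' := by
          refine ⟨fun i => N i - (Pi.single a 1 : Fin k → ℕ) i, funext fun i => ?_⟩
          change N i = (Pi.single a 1 : Fin k → ℕ) i + (N i - (Pi.single a 1 : Fin k → ℕ) i)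
          by_cases hi : i = a
          · subst hi
            rw [Pi.single_eq_same]
            omega
          · rw [Pi.single_eq_of_ne hi]
            omega
        simp only [add_right_inj]
        rw [ih, ← multinomial_term (fun i => q.real {i})]
        have : ∑ i, (Pi.single a 1 + N' : Fin k → ℕ) i = ∑ i, N' i + 1 := by
          simp [Finset.sum_add_distrib, add_comm]
        rw [this]
        simp only [add_left_inj]
        split_ifs
        · ring
        · simp
    simp only [h2]
    split_ifs with hN
    · rw [← Finset.mul_sum, ← Finset.sum_mul, ← Nat.cast_sum, hN, Nat.factorial_succ]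
      push_cast
      ring
    · simp

theorem poissonize (q : Measure (Fin k)) [IsProbabilityMeasure q] (r : ℝ≥0) :
    (Measure.sum fun n => poissonMeasure r {n} • (Measure.pi fun _ : Fin n => q).map cnt) =
      Measure.pi fun i => poissonMeasure (r * (q {i}).toNNReal) := by
  refine Measure.ext_of_singleton fun N => ?_
  rw [Measure.sum_apply _ (measurableSet_singleton _), tsum_eq_single (∑ i, N i), ← univ_pi_singleton,
    Measure.pi_pi, univ_pi_singleton]
  · rw [Measure.smul_apply, Measure.map_apply (measurable_of_finite _) (measurableSet_singleton _),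
      smul_eq_mul, ← ENNReal.toReal_eq_toReal_iff' (by finiteness)
        (ENNReal.prod_ne_top fun i _ => measure_ne_top _ _),
      ENNReal.toReal_mul, ENNReal.toReal_prod]
    have := multinomial_law q (∑ i, N i) N
    rw [if_pos rfl] at this
    simp only [← measureReal_def, poissonMeasure_real_singleton]
    rw [show cnt ⁻¹' {N} = {y : Fin (∑ i, N i) → Fin k | cnt y = N} from rfl, this]
    have h1 : ∑ i, q.real {i} = 1 := by simp
    have h2 : Real.exp (-r) = ∏ i, Real.exp (-(r * q.real {i})) := by
      rw [← Real.exp_sum, Finset.sum_neg_distrib, ← Finset.mul_sum, h1, mul_one]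
    rw [h2, ← Finset.prod_pow_eq_pow_sum, ← Finset.prod_mul_distrib, ← mul_assoc,
      div_mul_cancel₀ _ (by positivity), ← Finset.prod_mul_distrib]
    refine Finset.prod_congr rfl fun i _ => ?_
    simp only [NNReal.coe_mul, ENNReal.coe_toNNReal_eq_toReal, ← measureReal_def, mul_pow]
    ring
  · intro n hn
    have := multinomial_law q n N
    rw [if_neg hn.symm, measureReal_eq_zero_iff] at this
    rw [Measure.smul_apply, Measure.map_apply (measurable_of_finite _) (measurableSet_singleton _),
      show cnt ⁻¹' {N} = {y : Fin n → Fin k | cnt y = N} from rfl, this, smul_zero]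

end Multinomial

variable {Z G : Type} [MeasurableSpace Z] [MeasurableSpace G]

/-- The configuration of the points `e (x l)` for those `l` with `x l ∈ E`. -/
noncomputable def config (E : Set Z) (e : Z → G) {n : ℕ} (x : Fin n → Z) : Measure G :=
  ∑ l, E.indicator (fun z => Measure.dirac (e z)) (x l)

theorem measurable_config {E : Set Z} (hE : MeasurableSet E) {e : Z → G} (he : Measurable e)
    (n : ℕ) : Measurable (config E e (n := n)) :=
  Finset.measurable_sum _ fun l _ =>
    ((Measure.measurable_dirac.comp he).indicator hE).comp (measurable_pi_apply l)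

theorem isPoisson_mixed (P : Measure Z) [IsProbabilityMeasure P] {E : Set Z}
    (hE : MeasurableSet E) {e : Z → G} (he : Measurable e) (r : ℝ≥0) :
    IsPoisson ((r : ℝ≥0∞) • (P.restrict E).map e) (Measure.sum fun n =>
      poissonMeasure r {n} • (Measure.pi fun _ : Fin n => P).map (config E e)) := by
  have hp : ∀ n, IsProbabilityMeasure ((Measure.pi fun _ : Fin n => P).map (config E e)) :=
    fun n => Measure.isProbabilityMeasure_map (measurable_config hE he n).aemeasurable
  refine ⟨⟨?_⟩, ?_⟩
  · rw [Measure.sum_apply _ MeasurableSet.univ]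
    simp only [Measure.smul_apply, measure_univ, smul_eq_mul, mul_one]
    rw [← measure_iUnion (fun i j hij => by simpa [Function.onFun] using hij)
      (fun n => measurableSet_singleton n), iUnion_of_singleton, measure_univ]
  intro k B m hB _ hd
  classical
  let c : Z → Fin (k + 1) := fun z => if h : z ∈ E ∧ ∃ j, e z ∈ B j then h.2.choose.succ else 0
  have hc1 : ∀ j z, c z = Fin.succ j ↔ z ∈ E ∧ e z ∈ B j := by
    intro j z
    simp only [c]
    split_ifs with h
    · rw [Fin.succ_inj]
      refine ⟨fun h1 => ⟨h.1, h1 ▸ h.2.choose_spec⟩, fun h1 => ?_⟩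
      by_contra h2
      exact Set.disjoint_left.1 (hd h2) h.2.choose_spec h1.2
    · exact ⟨fun h1 => absurd h1.symm (Fin.succ_ne_zero j), fun h1 => absurd ⟨h1.1, j, h1.2⟩ h⟩
  have hc2 : ∀ j, c ⁻¹' {Fin.succ j} = e ⁻¹' B j ∩ E := fun j => by
    ext z
    simp [hc1, and_comm]
  have hc : Measurable c := by
    refine measurable_to_countable' fun i => ?_
    induction i using Fin.cases with
    | zero =>
      have : c ⁻¹' {0} = (⋃ j, c ⁻¹' {Fin.succ j})ᶜ := by
        ext z
        simp only [mem_preimage, mem_singleton_iff, mem_compl_iff, mem_iUnion, not_exists]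
        induction c z using Fin.cases <;> simp [(Fin.succ_ne_zero _).symm]
      rw [this]
      exact (MeasurableSet.iUnion fun j => hc2 j ▸ (he (hB j)).inter hE).compl
    | succ j => exact hc2 j ▸ (he (hB j)).inter hE
  have : IsProbabilityMeasure (P.map c) := Measure.isProbabilityMeasure_map hc.aemeasurable
  let T : Set (Fin (k + 1) → ℕ) := univ.pi (Fin.cons univ fun j => {m j})
  have hT : MeasurableSet T := (Set.to_countable _).measurableSet
  have h1 := congrArg (fun ν : Measure (Fin (k + 1) → ℕ) => ν T) (poissonize (P.map c) r)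
  simp only [Measure.sum_apply _ hT, T, Measure.pi_pi, Fin.prod_univ_succ, Fin.cons_zero,
    Fin.cons_succ, measure_univ, one_mul] at h1
  rw [Measure.sum_apply _ (measurableSet_counts hB m)]
  convert h1 using 3 with n j
  · rw [Measure.smul_apply, Measure.smul_apply, ← Measure.pi_map_pi (fun _ => hc.aemeasurable),
      Measure.map_map (measurable_of_finite _) (by fun_prop),
      Measure.map_apply (measurable_config hE he n) (measurableSet_counts hB m),
      Measure.map_apply ((measurable_of_finite _).comp (by fun_prop)) hT]
    congr 2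
    ext x
    have h2 : ∀ j, config E e x (B j) = (cnt (fun l => c (x l)) j.succ : ℕ) := fun j => by
      simp only [config, cnt, Measure.coe_finsetSum, Finset.sum_apply, Nat.cast_sum]
      refine Finset.sum_congr rfl fun l _ => ?_
      by_cases h : x l ∈ E ∧ e (x l) ∈ B j
      · rw [(hc1 j _).2 h, indicator_of_mem h.1, Measure.dirac_apply' _ (hB j),
          indicator_of_mem h.2]
        simp
      · rw [Pi.single_eq_of_ne (fun h1 => h ((hc1 j _).1 h1.symm))]
        by_cases h1 : x l ∈ E
        · rw [indicator_of_mem h1, Measure.dirac_apply' _ (hB j),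
            indicator_of_notMem fun h2 => h ⟨h1, h2⟩]
          simp
        · simp [h1]
    simp [h2, T, Fin.forall_fin_succ]
  · rw [Measure.smul_apply, Measure.map_apply he (hB _), Measure.restrict_apply (he (hB _)),
      Measure.map_apply hc (measurableSet_singleton _), hc2, smul_eq_mul, ENNReal.toNNReal_mul]
    simp

theorem hasSum_poisson_sq (r : ℝ≥0) :
    HasSum (fun m : ℕ => Real.exp (-r) * r ^ m / m ! * ((m : ℝ) - r) ^ 2) r := by
  have h0 := hasSum_one_poissonMeasure r
  have h1 : HasSum (fun m : ℕ => Real.exp (-r) * r ^ m / m ! * (m : ℝ)) r := by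
    rw [← hasSum_nat_add_iff' 1]
    convert! h0.mul_left (r : ℝ) using 1
    · funext m
      rw [Nat.factorial_succ]
      push_cast
      field_simp
      ring
    · simp
  have h2 : HasSum (fun m : ℕ => Real.exp (-r) * r ^ m / m ! * ((m : ℝ) * (m - 1))) (r * r) := by
    rw [← hasSum_nat_add_iff' 1]
    convert! h1.mul_left (r : ℝ) using 1
    · funext m
      rw [Nat.factorial_succ]
      push_cast
      field_simp
      ring
    · simp
  convert! (h2.add (h1.mul_left (1 - 2 * (r : ℝ)))).add (h0.mul_left ((r : ℝ) ^ 2)) using 1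
  · funext m
    ring
  · ring

theorem abs_sub_integral_poisson_le {r : ℝ≥0} (hr : 0 < r) {a : ℕ → ℝ} {c B : ℝ}
    (hB : ∀ n, |a n| ≤ B) (ha : ∀ n, |a (n + 1) - a n| ≤ c) (n : ℕ) :
    |a n - ∫ m, a m ∂poissonMeasure r| ≤ c * (|(n : ℝ) - r| + √r) := by
  have hc : 0 ≤ c := (abs_nonneg _).trans (ha 0)
  have h1 : ∀ m d : ℕ, |a (m + d) - a m| ≤ c * d := by
    intro m d
    induction d with
    | zero => simp
    | succ d ih =>
      have := abs_sub_le (a (m + d + 1)) (a (m + d)) (a m)
      have := ha (m + d)
      rw [← add_assoc]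
      push_cast
      linarith
  have h2 : ∀ m : ℕ, |a n - a m| ≤ c * |(n : ℝ) - m| := by
    intro m
    rcases le_total n m with h | h
    · obtain ⟨d, rfl⟩ := Nat.exists_eq_add_of_le h
      rw [abs_sub_comm]
      simpa using h1 n d
    · obtain ⟨d, rfl⟩ := Nat.exists_eq_add_of_le h
      simpa using h1 m d
  have hs : (0 : ℝ) < √r := Real.sqrt_pos.2 hr
  have hi : Integrable a (poissonMeasure r) :=
    Integrable.of_bound (measurable_of_countable a).aestronglyMeasurable B (Eventually.of_forall hB)
  have hi2 : Integrable (fun m : ℕ => ((m : ℝ) - r) ^ 2) (poissonMeasure r) :=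
    integrable_poissonMeasure_iff.2 (by simpa using (hasSum_poisson_sq r).summable)
  have h3 : ∫ m : ℕ, ((m : ℝ) - r) ^ 2 ∂poissonMeasure r = r := by
    rw [integral_poissonMeasure]
    exact (hasSum_poisson_sq r).tsum_eq
  calc |a n - ∫ m, a m ∂poissonMeasure r| = |∫ m, (a n - a m) ∂poissonMeasure r| := by
        rw [integral_sub (integrable_const _) hi]
        simp
    _ ≤ ∫ m, |a n - a m| ∂poissonMeasure r := abs_integral_le_integral_abs
    _ ≤ ∫ m : ℕ, c * (|(n : ℝ) - r| + √r / 2 + ((m : ℝ) - r) ^ 2 / (2 * √r)) ∂poissonMeasure r := by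
        refine integral_mono ((integrable_const _).sub hi).abs
          (((integrable_const _).add (hi2.div_const _)).const_mul _) fun m => (h2 m).trans ?_
        refine mul_le_mul_of_nonneg_left ?_ hc
        have h4 := abs_sub_le (n : ℝ) r m
        have h5 : |(r : ℝ) - m| ≤ √r / 2 + ((m : ℝ) - r) ^ 2 / (2 * √r) := by
          rw [← sq_abs ((m : ℝ) - r), abs_sub_comm (m : ℝ), div_add_div _ _ (by positivity)
            (by positivity), le_div_iff₀ (by positivity)]
          nlinarith [sq_nonneg (√r - |(r : ℝ) - m|)]
        linarith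
    _ = c * (|(n : ℝ) - r| + √r) := by
        rw [integral_const_mul, integral_add (integrable_const _) (hi2.div_const _),
          integral_div, h3]
        have : (r : ℝ) / (2 * √r) = √r / 2 := by
          rw [div_eq_div_iff (by positivity) (by positivity)]
          nlinarith [Real.mul_self_sqrt r.coe_nonneg]
        simp only [integral_const, probReal_univ, smul_eq_mul, one_mul, this]
        ring

/-- A fixed number of independent points is close in law to the Poisson process on a window. -/
theorem abs_integral_config_sub_le (P : Measure Z) [IsProbabilityMeasure P] {E : Set Z}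
    (hE : MeasurableSet E) {e : Z → G} (he : Measurable e) {r : ℝ≥0} (hr : 0 < r)
    {Λ : Measure G} {μ : Measure (Measure G)} (hμ : IsPoisson Λ μ) {L : Set G}
    (hL : MeasurableSet L) (hΛ : Λ.restrict L = (r : ℝ≥0∞) • (P.restrict E).map e)
    {H : Measure G → ℝ} (hH : Measurable H) (hl : IsLocal L H) {R : ℝ} (hR : ∀ ω, |H ω| ≤ R)
    (n : ℕ) :
    |∫ x, H (config E e x) ∂(Measure.pi fun _ : Fin n => P) - ∫ ω, H ω ∂μ| ≤
      2 * R * P.real E * (|(n : ℝ) - r| + √r) := by
  have h1 := hμ.restrict hL
  rw [hΛ] at h1
  have : IsFiniteMeasure ((r : ℝ≥0∞) • (P.restrict E).map e) :=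
    Measure.smul_finite _ ENNReal.coe_ne_top
  have h2 := h1.unique_finite (isPoisson_mixed P hE he r)
  have hp := (isPoisson_mixed P hE he r).1
  have hb : ∀ n, |∫ x, H (config E e x) ∂(Measure.pi fun _ : Fin n => P)| ≤ R := fun n => by
    simpa using norm_integral_le_of_norm_le_const (μ := Measure.pi fun _ : Fin n => P)
      (f := fun x => H (config E e x)) (Eventually.of_forall fun x => hR _)
  have h3 : ∫ ω, H ω ∂μ = ∫ m, (∫ x, H (config E e x) ∂(Measure.pi fun _ : Fin m => P))
      ∂poissonMeasure r := by
    calc ∫ ω, H ω ∂μ = ∫ ω, H ω ∂(μ.map fun ω => ω.restrict L) := by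
          rw [integral_map (measurable_restrict hL).aemeasurable hH.aestronglyMeasurable]
          simp only [hl _]
      _ = _ := by
          rw [h2, integral_sum_measure (Integrable.of_bound hH.aestronglyMeasurable R
            (Eventually.of_forall hR)), integral_poissonMeasure]
          refine tsum_congr fun m => ?_
          rw [integral_smul_measure, integral_map (measurable_config hE he m).aemeasurable
            hH.aestronglyMeasurable, ← measureReal_def, poissonMeasure_real_singleton]
  rw [h3]
  refine abs_sub_integral_poisson_le hr hb (fun m => ?_) n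
  have hm : Measurable fun x : Fin (m + 1) → Z => H (config E e x) :=
    hH.comp (measurable_config hE he (m + 1))
  rw [integral_cons P m hm (fun x => hR _)]
  have hj : Measurable fun z : (Fin m → Z) × Z => H (config E e (Fin.cons z.2 z.1 : Fin (m + 1) → Z)) :=
    hm.comp ((measurePreserving_cons P m).measurable.comp measurable_swap)
  have hb2 : ∀ y : Fin m → Z, |∫ a, H (config E e (Fin.cons a y : Fin (m + 1) → Z)) ∂P| ≤ R :=
    fun y => by
      simpa using norm_integral_le_of_norm_le_const (μ := P)
        (f := fun a => H (config E e (Fin.cons a y : Fin (m + 1) → Z)))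
        (Eventually.of_forall fun x => hR _)
  have hi1 : Integrable (fun y : Fin m → Z =>
      ∫ a, H (config E e (Fin.cons a y : Fin (m + 1) → Z)) ∂P) (Measure.pi fun _ => P) :=
    Integrable.of_bound hj.stronglyMeasurable.integral_prod_right'.aestronglyMeasurable R
      (Eventually.of_forall hb2)
  have hi2 : Integrable (fun y : Fin m → Z => H (config E e y)) (Measure.pi fun _ => P) :=
    Integrable.of_bound (hH.comp (measurable_config hE he m)).aestronglyMeasurable R
      (Eventually.of_forall fun x => hR _)
  rw [← integral_sub hi1 hi2, ← Real.norm_eq_abs]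
  refine (norm_integral_le_of_norm_le_const (C := 2 * R * P.real E)
    (μ := Measure.pi fun _ : Fin m => P) (Eventually.of_forall fun y => ?_)).trans (by rw [probReal_univ, mul_one])
  have hi : Integrable (fun a => H (config E e (Fin.cons a y : Fin (m + 1) → Z))) P :=
    Integrable.of_bound (hj.comp measurable_prodMk_left).aestronglyMeasurable R
      (Eventually.of_forall fun x => hR _)
  calc ‖∫ a, H (config E e (Fin.cons a y : Fin (m + 1) → Z)) ∂P - H (config E e y)‖
      = ‖∫ a, (H (config E e (Fin.cons a y : Fin (m + 1) → Z)) - H (config E e y)) ∂P‖ := by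
        rw [integral_sub hi (integrable_const _)]
        simp
    _ ≤ ∫ a, E.indicator (fun _ => 2 * R) a ∂P := by
        refine norm_integral_le_of_norm_le ((integrable_const _).indicator hE)
          (Eventually.of_forall fun a => ?_)
        by_cases ha : a ∈ E
        · rw [indicator_of_mem ha]
          have h4 := hR (config E e (Fin.cons a y : Fin (m + 1) → Z))
          have h5 := hR (config E e y)
          exact (abs_sub _ _).trans (by linarith)
        · simp [config, Fin.sum_univ_succ, ha]
    _ = 2 * R * P.real E := by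
        rw [integral_indicator_const _ hE, smul_eq_mul, mul_comm]

end Pool.Agent.MP_13bd65_an.H30
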