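import Pool.Agent.MP_13bd65_an.H30.Mixed
import Pool.Agent.MP_13bd65_an.H30.Local

/-! Independent points of a local `G`-space, seen from a base point. -/

namespace Pool.Agent.MP_13bd65_an.H30

open MeasureTheory ProbabilityTheory Set Filter Topology
open scoped ENNReal NNReal

theorem abs_integral_le {X : Type} [MeasurableSpace X] (P : Measure X) [IsProbabilityMeasure P]
    {f : X → ℝ} {R : ℝ} (h : ∀ x, |f x| ≤ R) : |∫ x, f x ∂P| ≤ R := by
  simpa using norm_integral_le_of_norm_le_const (μ := P) (f := f) (Eventually.of_forall h)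

theorem integrable_of_abs_le {X : Type} [MeasurableSpace X] (P : Measure X) [IsFiniteMeasure P]
    {f : X → ℝ} (hf : Measurable f) {R : ℝ} (h : ∀ x, |f x| ≤ R) : Integrable f P :=
  Integrable.of_bound hf.aestronglyMeasurable R (Eventually.of_forall h)

theorem measurable_integral_right {X W : Type} [MeasurableSpace X] [MeasurableSpace W]
    (P : Measure X) [SFinite P] {f : W → X → ℝ} (hf : Measurable fun z : W × X => f z.1 z.2) :
    Measurable fun w => ∫ x, f w x ∂P :=
  (hf.stronglyMeasurable.integral_prod_right' (ν := P)).measurable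

theorem abs_integral_sub_le {X : Type} [MeasurableSpace X] (P : Measure X)
    [IsProbabilityMeasure P] {f g : X → ℝ} (hf : Measurable f) (hg : Measurable g) {R c : ℝ}
    (h1 : ∀ x, |f x| ≤ R) (h2 : ∀ x, |g x| ≤ R) {A : Set X} (hA : MeasurableSet A) (hc : 0 ≤ c)
    (h : ∀ x ∉ A, |f x - g x| ≤ c) : |∫ x, f x ∂P - ∫ x, g x ∂P| ≤ c + 2 * R * P.real A := by
  rw [← integral_sub (integrable_of_abs_le P hf h1) (integrable_of_abs_le P hg h2),
    ← Real.norm_eq_abs]
  refine (norm_integral_le_of_norm_le (g := fun x => c + A.indicator (fun _ => 2 * R) x)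
    ((integrable_const _).add ((integrable_const _).indicator hA))
    (Eventually.of_forall fun x => ?_)).trans ?_
  · by_cases hx : x ∈ A
    · rw [indicator_of_mem hx]
      have := h1 x
      have := h2 x
      exact (abs_sub _ _).trans (by linarith)
    · simpa [hx] using h x hx
  · rw [integral_add (integrable_const _) ((integrable_const _).indicator hA),
      integral_indicator_const _ hA]
    simp [mul_comm]

theorem config_restrict_congr {Z G : Type} [MeasurableSpace G] [MeasurableSingletonClass G]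
    {E E' : Set Z} {e e' : Z → G} {n : ℕ} {x x' : Fin n → Z} {K : Set G}
    (h : ∀ l, ∀ g ∈ K, (x l ∈ E ∧ e (x l) = g ↔ x' l ∈ E' ∧ e' (x' l) = g)) :
    (config E e x).restrict K = (config E' e' x').restrict K := by
  ext s hs
  simp only [Measure.restrict_apply hs, config, Measure.coe_finsetSum, Finset.sum_apply]
  refine Finset.sum_congr rfl fun l _ => ?_
  by_cases h1 : x l ∈ E ∧ e (x l) ∈ K
  · obtain ⟨h2, h3⟩ := (h l _ h1.2).1 ⟨h1.1, rfl⟩
    rw [indicator_of_mem h1.1, indicator_of_mem h2, h3]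
  · have h2 : ¬(x' l ∈ E' ∧ e' (x' l) ∈ K) := fun h2 => by
      obtain ⟨h3, h4⟩ := (h l _ h2.2).2 ⟨h2.1, rfl⟩
      exact h1 ⟨h3, h4 ▸ h2.2⟩
    have h3 : ∀ (E : Set Z) (e : Z → G) (y : Z), ¬(y ∈ E ∧ e y ∈ K) →
        (E.indicator (fun z => Measure.dirac (e z)) y) (s ∩ K) = 0 := fun E e y hy => by
      by_cases h4 : y ∈ E
      · rw [indicator_of_mem h4, Measure.dirac_apply, indicator_of_notMem fun h5 => hy ⟨h4, h5.2⟩]
      · simp [h4]
    rw [h3 _ _ _ h1, h3 _ _ _ h2]

variable {G M : Type} [Group G] [TopologicalSpace G] [IsTopologicalGroup G] [MeasurableSpace G]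
  [BorelSpace G] [SecondCountableTopology G] [T2Space G] [TopologicalSpace M] [MeasurableSpace M]

/-- The points `x` in the chart at `p`, translated by `u`. -/
noncomputable def theta (E : Set (M × M)) (e : M × M → G) (u : G) (p : M) {n : ℕ}
    (x : Fin n → M) : Measure G :=
  config (Prod.mk p ⁻¹' E) (fun y => u * e (p, y)) x

omit [T2Space G] [TopologicalSpace M] in
theorem measurable_theta {E : Set (M × M)} (hE : MeasurableSet E) {e : M × M → G}
    (he : Measurable e) {W : Type} [MeasurableSpace W] {u : W → G} {p : W → M} {n : ℕ}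
    {x : W → Fin n → M} (hu : Measurable u) (hp : Measurable p) (hx : Measurable x) :
    Measurable fun w => theta E e (u w) (p w) (x w) := by
  unfold theta config
  refine Finset.measurable_sum _ fun l _ => ?_
  have h1 : Measurable fun w => (p w, x w l) := hp.prodMk ((measurable_pi_apply l).comp hx)
  convert (Measure.measurable_dirac.comp (hu.mul (he.comp h1))).indicator (h1 hE) using 1
  funext w
  by_cases h : (p w, x w l) ∈ E <;> simp [h]

omit [T2Space G] [TopologicalSpace M] [MeasurableSpace M] [SecondCountableTopology G] in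
theorem theta_map (E : Set (M × M)) (e : M × M → G) (u : G) (p : M) {n : ℕ} (x : Fin n → M) :
    (theta E e 1 p x).map (fun g => u * g) = theta E e u p x := by
  have hu := measurable_const_mul u
  ext s hs
  simp only [Measure.map_apply hu hs, theta, config, Measure.coe_finsetSum, Finset.sum_apply]
  refine Finset.sum_congr rfl fun l _ => ?_
  by_cases h : x l ∈ Prod.mk p ⁻¹' E
  · rw [indicator_of_mem h, indicator_of_mem h, ← Measure.map_apply hu hs, Measure.map_dirac' hu,
      one_mul]
  · simp [h]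

variable {lam : Measure G} {α : LocalAction G M} {vol : Measure M} {L : Set G} {Ω : Set M}
  {E : Set (M × M)} {e : M × M → G}

omit [IsTopologicalGroup G] [SecondCountableTopology G] in
theorem IsModel.theta_act (hM : IsModel lam α vol L Ω E e) {p : M} (hp : p ∈ Ω) {h : G}
    (hd : (h, p) ∈ α.dom) (hp' : α.act h p ∈ Ω) {u : G} {K : Set G} (h1 : ∀ g ∈ K, u⁻¹ * g ∈ L)
    (h2 : ∀ g ∈ K, (u * h)⁻¹ * g ∈ L) {n : ℕ} (x : Fin n → M) :
    (theta E e u (α.act h p) x).restrict K = (theta E e (u * h) p x).restrict K := by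
  refine config_restrict_congr fun l g hg => ?_
  have := hM.equiv p hp h hd hp' _ (h1 g hg) (by simpa [mul_assoc] using h2 g hg) (x l)
  simpa only [mem_preimage, ← eq_inv_mul_iff_mul_eq, mul_inv_rev, mul_assoc] using this

omit [IsTopologicalGroup G] [BorelSpace G] [SecondCountableTopology G] [T2Space G] in
theorem IsModel.tv (hM : IsModel lam α vol L Ω E e) [IsFiniteMeasure vol] (hv : vol univ ≠ 0)
    (hL : MeasurableSet L) {t : ℝ≥0} (ht : 0 < t) {μ : Measure (Measure G)}
    (hμ : IsPoisson (t • lam) μ) {p : M} (hp : p ∈ Ω) {H : Measure G → ℝ} (hH : Measurable H)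
    (hl : IsLocal L H) {R : ℝ} (hR : ∀ ω, |H ω| ≤ R) :
    |∫ x, H (theta E e 1 p x) ∂(Measure.pi fun _ : Fin ⌈t * vol.real univ⌉₊ => (vol univ)⁻¹ • vol) -
      ∫ ω, H ω ∂μ| ≤ R * (2 * lam.real L * (1 + √(t * vol.real univ)) / vol.real univ) := by
  have : NeZero vol := ⟨Measure.measure_univ_ne_zero.1 hv⟩
  have hE : MeasurableSet (Prod.mk p ⁻¹' E) := measurable_prodMk_left hM.measE
  have he : Measurable fun y => e (p, y) := hM.meas.comp measurable_prodMk_left
  have hr : 0 < t * (vol univ).toNNReal :=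
    mul_pos ht (ENNReal.toNNReal_pos hv (measure_ne_top _ _))
  have h1 := abs_integral_config_sub_le ((vol univ)⁻¹ • vol) hE he hr hμ hL (by
    rw [Measure.restrict_smul, Measure.restrict_smul, Measure.map_smul, hM.law p hp, smul_smul,
      ENNReal.coe_mul, ENNReal.coe_toNNReal (measure_ne_top _ _), mul_assoc,
      ENNReal.mul_inv_cancel hv (measure_ne_top _ _), mul_one]
    rfl) hH hl hR ⌈t * vol.real univ⌉₊
  have h2 : vol (Prod.mk p ⁻¹' E) = lam L := by
    have := congrArg (fun m : Measure G => m univ) (hM.law p hp)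
    simpa [Measure.map_apply he MeasurableSet.univ] using this
  have h3 : ((vol univ)⁻¹ • vol).real (Prod.mk p ⁻¹' E) = lam.real L / vol.real univ := by
    rw [measureReal_def, Measure.smul_apply, h2, smul_eq_mul, ENNReal.toReal_mul,
      ENNReal.toReal_inv, mul_comm]
    rfl
  have h4 : ((t * (vol univ).toNNReal : ℝ≥0) : ℝ) = t * vol.real univ := rfl
  have h5 : |(⌈t * vol.real univ⌉₊ : ℝ) - t * vol.real univ| ≤ 1 :=
    Nat.abs_ceil_sub_le (by positivity)
  have hR0 : 0 ≤ R := (abs_nonneg _).trans (hR 0)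
  rw [h3, h4] at h1
  simp only [theta, one_mul]
  refine h1.trans (le_of_le_of_eq (b := 2 * R * (lam.real L / vol.real univ) *
    (1 + √(t * vol.real univ))) (by gcongr) (by ring))

omit [T2Space G] in
theorem IsModel.mean (hM : IsModel lam α vol L Ω E e) (P : Measure M) [IsProbabilityMeasure P]
    {μ : Measure (Measure G)} [IsProbabilityMeasure μ] {n : ℕ} {γ : ℝ}
    (htv : ∀ p ∈ Ω, ∀ (H : Measure G → ℝ) (R : ℝ), Measurable H → IsLocal L H → (∀ ω, |H ω| ≤ R) →
      |∫ x, H (theta E e 1 p x) ∂(Measure.pi fun _ : Fin n => P) - ∫ ω, H ω ∂μ| ≤ R * γ)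
    (hΩ : P.real Ωᶜ ≤ γ) {H : M → Measure G → ℝ}
    (hH : Measurable fun z : M × Measure G => H z.1 z.2) (hl : ∀ p, IsLocal L (H p)) {R : ℝ}
    (hR0 : 0 ≤ R) (hR : ∀ p ω, |H p ω| ≤ R) :
    |∫ x, ∫ p, H p (theta E e 1 p x) ∂P ∂(Measure.pi fun _ : Fin n => P) -
      ∫ p, ∫ ω, H p ω ∂μ ∂P| ≤ 3 * R * γ := by
  have hγ : 0 ≤ γ := measureReal_nonneg.trans hΩ
  have hm : Measurable fun z : M × (Fin n → M) => H z.1 (theta E e 1 z.1 z.2) :=
    hH.comp (measurable_fst.prodMk
      (measurable_theta hM.measE hM.meas measurable_const measurable_fst measurable_snd))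
  rw [← integral_integral_swap (f := fun p x => H p (theta E e 1 p x))
    (integrable_of_abs_le _ hm fun z => hR _ _)]
  refine (abs_integral_sub_le P (measurable_integral_right _ hm) (measurable_integral_right _ hH)
    (fun p => abs_integral_le _ fun x => hR _ _) (fun p => abs_integral_le _ fun x => hR _ _)
    hM.measΩ.compl (mul_nonneg hR0 hγ) fun p hp =>
      htv p (not_not.1 hp) (H p) R (hH.comp measurable_prodMk_left) (hl p) (hR p)).trans ?_
  nlinarith

omit [IsTopologicalGroup G] [BorelSpace G] [SecondCountableTopology G] [T2Space G] in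
theorem IsModel.dual_real (hM : IsModel lam α vol L Ω E e) {K : Set G} (hK : MeasurableSet K)
    (hK' : lam K ≠ ∞) (y : M) :
    ((vol univ)⁻¹ • vol).real {p | (p, y) ∈ E ∧ e (p, y) ∈ K} ≤ lam.real K / vol.real univ := by
  rw [measureReal_def, Measure.smul_apply, smul_eq_mul, ENNReal.toReal_mul, ENNReal.toReal_inv,
    mul_comm]
  exact mul_le_mul_of_nonneg_right (ENNReal.toReal_mono hK' (hM.dual y K hK)) (by positivity)

theorem IsModel.bounded_diff (hM : IsModel lam α vol L Ω E e) (P : Measure M)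
    [IsProbabilityMeasure P] {K : Set G} (hK : MeasurableSet K) {k : ℝ}
    (hk : ∀ y, P.real {p | (p, y) ∈ E ∧ e (p, y) ∈ K} ≤ k) {H : M → Measure G → ℝ}
    (hH : Measurable fun z : M × Measure G => H z.1 z.2) (hl : ∀ p, IsLocal K (H p)) {R : ℝ}
    (hR0 : 0 ≤ R) (hR : ∀ p ω, |H p ω| ≤ R) {n : ℕ} (x : Fin n → M) (i : Fin n) (a : M) :
    |∫ p, H p (theta E e 1 p (Function.update x i a)) ∂P - ∫ p, H p (theta E e 1 p x) ∂P| ≤
      4 * R * k := by
  have hm : ∀ x : Fin n → M, Measurable fun p => H p (theta E e 1 p x) := fun x =>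
    hH.comp (measurable_id.prodMk
      (measurable_theta hM.measE hM.meas measurable_const measurable_id measurable_const))
  have hA : ∀ y, MeasurableSet {p | (p, y) ∈ E ∧ e (p, y) ∈ K} := fun y =>
    measurable_prodMk_right (hM.measE.inter (hM.meas hK))
  refine (abs_integral_sub_le P (hm _) (hm _) (fun p => hR _ _) (fun p => hR _ _)
    ((hA a).union (hA (x i))) le_rfl fun p hp => ?_).trans ?_
  · rw [(hl p).eq_of_restrict_eq (ω' := theta E e 1 p x), sub_self, abs_zero]
    refine config_restrict_congr fun l g hg => ?_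
    by_cases hli : l = i
    · subst hli
      simp only [Function.update_self, one_mul]
      exact iff_of_false (fun h => hp (Or.inl ⟨h.1, h.2 ▸ hg⟩))
        fun h => hp (Or.inr ⟨h.1, h.2 ▸ hg⟩)
    · rw [Function.update_of_ne hli]
  · have := measureReal_union_le (μ := P) {p | (p, a) ∈ E ∧ e (p, a) ∈ K}
      {p | (p, x i) ∈ E ∧ e (p, x i) ∈ K}
    have := hk a
    have := hk (x i)
    nlinarith

theorem IsModel.concentration (hM : IsModel lam α vol L Ω E e) (P : Measure M)
    [IsProbabilityMeasure P] {μ : Measure (Measure G)} [IsProbabilityMeasure μ] {n : ℕ} {γ : ℝ}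
    (htv : ∀ p ∈ Ω, ∀ (H : Measure G → ℝ) (R : ℝ), Measurable H → IsLocal L H → (∀ ω, |H ω| ≤ R) →
      |∫ x, H (theta E e 1 p x) ∂(Measure.pi fun _ : Fin n => P) - ∫ ω, H ω ∂μ| ≤ R * γ)
    (hΩ : P.real Ωᶜ ≤ γ) {K : Set G} (hK : MeasurableSet K) (hKL : K ⊆ L) {k v T : ℝ}
    (hk0 : 0 < k) (hv : 0 < v) (hT : 0 < T) (hn : (n : ℝ) ≤ T * v)
    (hk : ∀ y, P.real {p | (p, y) ∈ E ∧ e (p, y) ∈ K} ≤ k / v) {H : M → Measure G → ℝ}
    (hH : Measurable fun z : M × Measure G => H z.1 z.2) (hl : ∀ p, IsLocal K (H p)) {R : ℝ}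
    (hR0 : 0 < R) (hR : ∀ p ω, |H p ω| ≤ R) {s : ℝ} (hs : 0 ≤ s) :
    (Measure.pi fun _ : Fin n => P).real {x | 3 * R * γ + s ≤
      |∫ p, H p (theta E e 1 p x) ∂P - ∫ p, ∫ ω, H p ω ∂μ ∂P|} ≤
      2 * Real.exp (-(s ^ 2 / (32 * T * R ^ 2 * k ^ 2) * v)) := by
  have hm : Measurable fun x : Fin n → M => ∫ p, H p (theta E e 1 p x) ∂P :=
    measurable_integral_right P (f := fun x p => H p (theta E e 1 p x))
      (hH.comp (measurable_snd.prodMk
        (measurable_theta hM.measE hM.meas measurable_const measurable_snd measurable_fst)))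
  have hb : ∀ x : Fin n → M, |∫ p, H p (theta E e 1 p x) ∂P| ≤ R := fun x =>
    abs_integral_le _ fun p => hR _ _
  have hd := hM.bounded_diff P hK hk hH hl hR0.le hR (n := n)
  have hc : 0 < 4 * R * (k / v) := by positivity
  have h1 := mcdiarmid P hc hm hb hd hs (mul_pos hT hv) hn
  have h2 := mcdiarmid_lower P hc hm hb hd hs (mul_pos hT hv) hn
  have h3 := abs_le.1 (hM.mean P htv hΩ hH (fun p => (hl p).mono hK hKL) hR0.le hR)
  have h4 : s ^ 2 / (2 * (T * v) * (4 * R * (k / v)) ^ 2) =
      s ^ 2 / (32 * T * R ^ 2 * k ^ 2) * v := by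
    field_simp
    ring
  rw [h4] at h1 h2
  refine le_trans (measureReal_mono (fun x hx => ?_) (measure_ne_top _ _))
    ((measureReal_union_le _ _).trans ((add_le_add h1 h2).trans_eq (two_mul _).symm))
  simp only [mem_union, mem_ofPred_eq] at hx ⊢
  rcases le_abs.1 hx with h | h
  · left
    linarith [h3.2]
  · right
    linarith [h3.1]

end Pool.Agent.MP_13bd65_an.H30
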