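import Pool.Agent.MP_13bd65_an.H30.Defs

/-! Uniqueness of the law of a Poisson process and approximation by local functions. -/

namespace Pool.Agent.MP_13bd65_an.H30

open MeasureTheory ProbabilityTheory Set Filter Topology
open scoped ENNReal NNReal symmDiff

variable {Z Z' : Type} [MeasurableSpace Z] [MeasurableSpace Z']

theorem measurable_restrict {K : Set Z} (hK : MeasurableSet K) :
    Measurable fun ω : Measure Z => ω.restrict K :=
  Measure.measurable_of_measurable_coe _ fun s hs => by
    simp only [Measure.restrict_apply hs]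
    exact Measure.measurable_coe (hs.inter hK)

theorem measurableSet_counts {k : ℕ} {B : Fin k → Set Z} (hB : ∀ j, MeasurableSet (B j))
    (n : Fin k → ℕ) : MeasurableSet {ω : Measure Z | ∀ j, ω (B j) = n j} := by
  rw [ofPred_forall]
  exact MeasurableSet.iInter fun j => Measure.measurable_coe (hB j) (measurableSet_singleton _)

theorem IsPoisson.map {Λ : Measure Z} {μ : Measure (Measure Z)} (h : IsPoisson Λ μ) {a : Z → Z'}
    (ha : Measurable a) : IsPoisson (Λ.map a) (μ.map (Measure.map a)) := by
  have := h.1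
  refine ⟨Measure.isProbabilityMeasure_map (Measure.measurable_map a ha).aemeasurable, ?_⟩
  intro k B n hB hΛ hd
  rw [Measure.map_apply (Measure.measurable_map a ha) (measurableSet_counts hB n)]
  simp only [Measure.map_apply ha (hB _)] at hΛ ⊢
  rw [← h.2 k (fun j => a ⁻¹' B j) n (fun j => ha (hB j)) hΛ
    (fun i j hij => (hd hij).preimage a)]
  congr 1
  ext ω
  simp only [mem_preimage, mem_ofPred_eq, Measure.map_apply ha (hB _)]

theorem IsPoisson.restrict {Λ : Measure Z} {μ : Measure (Measure Z)} (h : IsPoisson Λ μ)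
    {K : Set Z} (hK : MeasurableSet K) :
    IsPoisson (Λ.restrict K) (μ.map fun ω => ω.restrict K) := by
  have := h.1
  refine ⟨Measure.isProbabilityMeasure_map (measurable_restrict hK).aemeasurable, ?_⟩
  intro k B n hB hΛ hd
  rw [Measure.map_apply (measurable_restrict hK) (measurableSet_counts hB n)]
  simp only [Measure.restrict_apply (hB _)] at hΛ ⊢
  rw [← h.2 k (fun j => B j ∩ K) n (fun j => (hB j).inter hK) hΛ
    (fun i j hij => (hd hij).mono inter_subset_left inter_subset_left)]
  congr 1
  ext ω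
  simp only [mem_preimage, mem_ofPred_eq, Measure.restrict_apply (hB _)]

theorem IsPoisson.apply_fin {k : ℕ} {Λ : Measure (Fin k)} [IsFiniteMeasure Λ]
    {μ : Measure (Measure (Fin k))} (h : IsPoisson Λ μ) {S : Set (Measure (Fin k))}
    (hS : MeasurableSet S) :
    μ S = ∑' n : Fin k → ℕ, μ (S ∩ {ω | ∀ j, ω {j} = n j}) := by
  have := h.1
  have hm : ∀ n : Fin k → ℕ, MeasurableSet {ω : Measure (Fin k) | ∀ j, ω {j} = n j} :=
    fun n => measurableSet_counts (fun j => measurableSet_singleton j) n
  have hd : Pairwise (Function.onFun Disjoint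
      fun n : Fin k → ℕ => {ω : Measure (Fin k) | ∀ j, ω {j} = n j}) := by
    intro n m hnm
    rw [Function.onFun, Set.disjoint_left]
    intro ω h1 h2
    exact hnm (funext fun j => by exact_mod_cast (h1 j).symm.trans (h2 j))
  have h1 : μ (⋃ n : Fin k → ℕ, {ω : Measure (Fin k) | ∀ j, ω {j} = n j}) = 1 := by
    rw [measure_iUnion hd hm]
    have : ∀ n : Fin k → ℕ, μ {ω : Measure (Fin k) | ∀ j, ω {j} = n j} =
        (Measure.pi fun j => poissonMeasure (Λ {j}).toNNReal) {n} := fun n => by
      rw [h.2 k (fun j => {j}) n (fun j => measurableSet_singleton j) (fun j => measure_ne_top _ _)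
        (fun i j hij => by simpa [Function.onFun] using hij), ← univ_pi_singleton, Measure.pi_pi]
    simp only [this]
    rw [← measure_iUnion (fun i j hij => by simpa [Function.onFun] using hij)
      (fun n => measurableSet_singleton n), iUnion_of_singleton, measure_univ]
  rw [← measure_iUnion (fun i j hij => (hd hij).mono inter_subset_right inter_subset_right)
    (fun n => hS.inter (hm n)), ← inter_iUnion]
  exact (measure_inter_conull ((prob_compl_eq_zero_iff (MeasurableSet.iUnion hm)).2 h1)).symm

theorem IsPoisson.unique_fin {k : ℕ} {Λ : Measure (Fin k)} [IsFiniteMeasure Λ]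
    {μ μ' : Measure (Measure (Fin k))} (h : IsPoisson Λ μ) (h' : IsPoisson Λ μ') : μ = μ' := by
  ext S hS
  rw [h.apply_fin hS, h'.apply_fin hS]
  refine tsum_congr fun n => ?_
  by_cases hn : (S ∩ {ω | ∀ j, ω {j} = n j}).Nonempty
  · obtain ⟨ω, hω, hω'⟩ := hn
    have : S ∩ {ω | ∀ j, ω {j} = n j} = {ω : Measure (Fin k) | ∀ j, ω {j} = n j} := by
      refine inter_eq_right.2 fun ω' h2 => ?_
      rwa [Measure.ext_of_singleton (μ := ω') (ν := ω) fun j => (h2 j).trans (hω' j).symm]
    rw [this]
    have hd : Pairwise (Function.onFun Disjoint fun j : Fin k => ({j} : Set (Fin k))) :=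
      fun i j hij => by simpa [Function.onFun] using hij
    rw [h.2 k (fun j => {j}) n (fun j => measurableSet_singleton j) (fun j => measure_ne_top _ _) hd,
      h'.2 k (fun j => {j}) n (fun j => measurableSet_singleton j) (fun j => measure_ne_top _ _) hd]
  · rw [not_nonempty_iff_eq_empty.1 hn, measure_empty, measure_empty]

theorem IsPoisson.unique_finite {Λ : Measure Z} [IsFiniteMeasure Λ]
    {μ μ' : Measure (Measure Z)} (h : IsPoisson Λ μ) (h' : IsPoisson Λ μ') : μ = μ' := by
  have := h.1
  have := h'.1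
  let C : Set (Set (Measure Z)) := {E | ∃ (k : ℕ) (a : Z → Fin k) (S : Set (Measure (Fin k))),
    Measurable a ∧ MeasurableSet S ∧ E = Measure.map a ⁻¹' S}
  refine ext_of_generate_finite C ?_ ?_ ?_ (by simp)
  · refine le_antisymm ?_ (MeasurableSpace.generateFrom_le ?_)
    · refine iSup₂_le fun s hs => ?_
      rintro _ ⟨T, hT, rfl⟩
      refine MeasurableSpace.measurableSet_generateFrom ⟨2, s.indicator 1,
        (fun ω => ω {1}) ⁻¹' T, measurable_const.indicator hs,
        Measure.measurable_coe (measurableSet_singleton _) hT, ?_⟩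
      ext ω
      have : (s.indicator (1 : Z → Fin 2)) ⁻¹' {1} = s := by
        ext z
        by_cases hz : z ∈ s <;> simp [hz]
      simp only [mem_preimage]
      rw [Measure.map_apply (measurable_one.indicator hs) (measurableSet_singleton _), this]
    · rintro _ ⟨k, a, S, ha, hS, rfl⟩
      exact Measure.measurable_map a ha hS
  · rintro _ ⟨k, a, S, ha, hS, rfl⟩ _ ⟨l, b, T, hb, hT, rfl⟩ _
    have hc : Measurable fun z => finProdFinEquiv (a z, b z) :=
      (measurable_of_finite _).comp (ha.prodMk hb)
    refine ⟨k * l, fun z => finProdFinEquiv (a z, b z),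
      Measure.map (fun i => (finProdFinEquiv.symm i).1) ⁻¹' S ∩
        Measure.map (fun i => (finProdFinEquiv.symm i).2) ⁻¹' T, hc,
      (Measure.measurable_map _ (measurable_of_finite _) hS).inter
        (Measure.measurable_map _ (measurable_of_finite _) hT), ?_⟩
    ext ω
    simp only [mem_inter_iff, mem_preimage]
    rw [Measure.map_map (measurable_of_finite _) hc, Measure.map_map (measurable_of_finite _) hc]
    simp only [Function.comp_def, Equiv.symm_apply_apply]
  · rintro _ ⟨k, a, S, ha, hS, rfl⟩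
    rw [← Measure.map_apply (Measure.measurable_map a ha) hS,
      ← Measure.map_apply (Measure.measurable_map a ha) hS, (h.map ha).unique_fin (h'.map ha)]

/-- `F` depends only on the restriction of the configuration to `K`. -/
def IsLocal {β : Type} (K : Set Z) (F : Measure Z → β) : Prop := ∀ ω, F (ω.restrict K) = F ω

theorem IsLocal.mono {β : Type} {K K' : Set Z} {F : Measure Z → β} (h : IsLocal K F)
    (hK : MeasurableSet K) (hKK : K ⊆ K') : IsLocal K' F := fun ω => by
  rw [← h (ω.restrict K'), Measure.restrict_restrict hK, inter_eq_left.2 hKK, h]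

theorem IsLocal.eq_of_restrict_eq {β : Type} {K : Set Z} {F : Measure Z → β} (h : IsLocal K F)
    {ω ω' : Measure Z} (hω : ω.restrict K = ω'.restrict K) : F ω = F ω' := by
  rw [← h ω, hω, h]

/-- Measurable sets of configurations that are local for some member of the family `K`. -/
def localSets (K : ℕ → Set Z) : Set (Set (Measure Z)) :=
  {E | MeasurableSet E ∧ ∃ n, IsLocal (K n) fun ω => ω ∈ E}

theorem isSetRing_localSets {K : ℕ → Set Z} (hK : ∀ n, MeasurableSet (K n)) (hm : Monotone K) :
    IsSetRing (localSets K) := by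
  refine ⟨⟨MeasurableSet.empty, 0, fun _ => rfl⟩, ?_, ?_⟩
  · rintro s t ⟨hs, n, hn⟩ ⟨ht, m, hm'⟩
    refine ⟨hs.union ht, max n m, fun ω => ?_⟩
    have h1 := hn.mono (hK n) (hm (le_max_left n m)) ω
    have h2 := hm'.mono (hK m) (hm (le_max_right n m)) ω
    simp only [mem_union] at h1 h2 ⊢
    rw [h1, h2]
  · rintro s t ⟨hs, n, hn⟩ ⟨ht, m, hm'⟩
    refine ⟨hs.diff ht, max n m, fun ω => ?_⟩
    have h1 := hn.mono (hK n) (hm (le_max_left n m)) ω
    have h2 := hm'.mono (hK m) (hm (le_max_right n m)) ω
    simp only [Set.mem_sdiff] at h1 h2 ⊢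
    rw [h1, h2]

theorem generateFrom_localSets {K : ℕ → Set Z} (hK : ∀ n, MeasurableSet (K n)) (hm : Monotone K)
    (hU : ⋃ n, K n = univ) :
    (Measure.instMeasurableSpace : MeasurableSpace (Measure Z)) =
      MeasurableSpace.generateFrom (localSets K) := by
  refine le_antisymm ?_ (MeasurableSpace.generateFrom_le fun E hE => hE.1)
  refine iSup₂_le fun s hs => ?_
  have h1 : ∀ n, Measurable[MeasurableSpace.generateFrom (localSets K)]
      fun ω : Measure Z => ω (s ∩ K n) := fun n T hT =>
    MeasurableSpace.measurableSet_generateFrom ⟨Measure.measurable_coe (hs.inter (hK n)) hT, n,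
      fun ω => by
        simp only [mem_preimage]
        rw [Measure.restrict_apply (hs.inter (hK n)), inter_assoc, inter_self]⟩
  have h2 : (fun ω : Measure Z => ω s) = fun ω => ⨆ n, ω (s ∩ K n) := by
    funext ω
    rw [← Monotone.measure_iUnion (fun i j hij => inter_subset_inter_right s (hm hij)),
      ← inter_iUnion, hU, inter_univ]
  have h3 : Measurable[MeasurableSpace.generateFrom (localSets K)] fun ω : Measure Z => ω s := by
    rw [h2]
    exact @Measurable.iSup _ _ _ _ _ (MeasurableSpace.generateFrom (localSets K)) _ _ _ _ _ _ h1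
  exact h3.comap_le

theorem IsPoisson.unique {Λ : Measure Z} {μ μ' : Measure (Measure Z)} (h : IsPoisson Λ μ)
    (h' : IsPoisson Λ μ') {K : ℕ → Set Z} (hK : ∀ n, MeasurableSet (K n)) (hm : Monotone K)
    (hU : ⋃ n, K n = univ) (hf : ∀ n, Λ (K n) ≠ ∞) : μ = μ' := by
  have := h.1
  have := h'.1
  refine ext_of_generate_finite _ (generateFrom_localSets hK hm hU)
    (fun s hs t ht _ => (isSetRing_localSets hK hm).inter_mem hs ht) ?_ (by simp)
  rintro E ⟨hE, n, hn⟩
  have h1 : E = (fun ω : Measure Z => ω.restrict (K n)) ⁻¹' E := by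
    ext ω
    exact (hn ω).symm.to_iff
  have : IsFiniteMeasure (Λ.restrict (K n)) := isFiniteMeasure_restrict.2 (hf n)
  rw [h1, ← Measure.map_apply (measurable_restrict (hK n)) hE,
    ← Measure.map_apply (measurable_restrict (hK n)) hE,
    (h.restrict (hK n)).unique_finite (h'.restrict (hK n))]

theorem exists_local_nat_aux (μ : Measure (Measure Z)) [IsFiniteMeasure μ] {K : ℕ → Set Z}
    (hK : ∀ n, MeasurableSet (K n)) (hm : Monotone K) (hU : ⋃ n, K n = univ)
    {J : Measure Z → ℕ} (hJ : Measurable J) (N : ℕ) : ∀ η : ℝ≥0∞, 0 < η →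
      ∃ (n : ℕ) (f : Measure Z → ℕ), Measurable f ∧ IsLocal (K n) f ∧
        μ {ω | J ω < N ∧ f ω ≠ J ω} < η := by
  induction N with
  | zero => exact fun η hη => ⟨0, fun _ => 0, measurable_const, fun _ => rfl, by simpa using hη⟩
  | succ N ih =>
    intro η hη
    obtain ⟨n, f, hf, hl, hη1⟩ := ih (η / 2) (ENNReal.half_pos hη.ne')
    obtain ⟨E, ⟨hE, m, hm'⟩, hη2⟩ := exists_measure_symmDiff_lt_of_generateFrom_isSetRing (μ := μ)
      (isSetRing_localSets hK hm) ⟨{univ}, countable_singleton _,
        singleton_subset_iff.2 ⟨MeasurableSet.univ, 0, fun _ => rfl⟩, by simp⟩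
      (generateFrom_localSets hK hm hU) (hJ (measurableSet_singleton N))
      (ENNReal.half_pos hη.ne')
    classical
    refine ⟨max n m, E.piecewise (fun _ => N) f, Measurable.piecewise hE measurable_const hf,
      fun ω => ?_, ?_⟩
    · have h1 := hl.mono (hK n) (hm (le_max_left n m)) ω
      have h2 := hm'.mono (hK m) (hm (le_max_right n m)) ω
      simp only [piecewise] at h1 h2 ⊢
      simp only [h1, h2]
    · calc μ {ω | J ω < N + 1 ∧ E.piecewise (fun _ => N) f ω ≠ J ω}
          ≤ μ ({ω | J ω < N ∧ f ω ≠ J ω} ∪ E ∆ (J ⁻¹' {N})) := by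
            refine measure_mono fun ω hω => ?_
            obtain ⟨h1, h2⟩ := hω
            by_cases hE' : ω ∈ E
            · rw [piecewise_eq_of_mem _ _ _ hE'] at h2
              exact Or.inr (Or.inl ⟨hE', fun h => h2 (Eq.symm h)⟩)
            · rw [piecewise_eq_of_notMem _ _ _ hE'] at h2
              by_cases h3 : J ω = N
              · exact Or.inr (Or.inr ⟨h3, hE'⟩)
              · exact Or.inl ⟨by omega, h2⟩
        _ ≤ _ := measure_union_le _ _
        _ < η / 2 + η / 2 := ENNReal.add_lt_add hη1 hη2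
        _ = η := ENNReal.add_halves η

theorem exists_local_nat (μ : Measure (Measure Z)) [IsFiniteMeasure μ] {K : ℕ → Set Z}
    (hK : ∀ n, MeasurableSet (K n)) (hm : Monotone K) (hU : ⋃ n, K n = univ)
    {J : Measure Z → ℕ} (hJ : Measurable J) {η : ℝ≥0∞} (hη : 0 < η) :
      ∃ (n : ℕ) (f : Measure Z → ℕ), Measurable f ∧ IsLocal (K n) f ∧ μ {ω | f ω ≠ J ω} < η := by
  have h1 : Tendsto (fun N => μ {ω | N ≤ J ω}) atTop (𝓝 (μ (⋂ N, {ω | N ≤ J ω}))) :=
    tendsto_measure_iInter_atTop (fun N => (hJ (t := {m | N ≤ m}) trivial).nullMeasurableSet)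
      (fun i j hij ω hω => hij.trans hω) ⟨0, measure_ne_top _ _⟩
  have h2 : (⋂ N, {ω | N ≤ J ω}) = ∅ := by
    refine eq_empty_of_forall_notMem fun ω hω => ?_
    have := mem_iInter.1 hω (J ω + 1)
    simp at this
  rw [h2, measure_empty] at h1
  obtain ⟨N, hN⟩ := (h1.eventually (gt_mem_nhds (ENNReal.half_pos hη.ne'))).exists
  obtain ⟨n, f, hf, hl, h3⟩ := exists_local_nat_aux μ hK hm hU hJ N _ (ENNReal.half_pos hη.ne')
  refine ⟨n, f, hf, hl, ?_⟩
  calc μ {ω | f ω ≠ J ω} ≤ μ ({ω | N ≤ J ω} ∪ {ω | J ω < N ∧ f ω ≠ J ω}) := by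
        refine measure_mono fun ω hω => ?_
        rcases le_or_gt N (J ω) with h | h
        exacts [Or.inl h, Or.inr ⟨h, hω⟩]
    _ ≤ _ := measure_union_le _ _
    _ < η / 2 + η / 2 := ENNReal.add_lt_add hN h3
    _ = η := ENNReal.add_halves η

/-- A measurable map to a separable space is close to a local measurable map. -/
theorem exists_local_approx (μ : Measure (Measure Z)) [IsProbabilityMeasure μ] {K : ℕ → Set Z}
    (hK : ∀ n, MeasurableSet (K n)) (hm : Monotone K) (hU : ⋃ n, K n = univ)
    {Y : Type} [TopologicalSpace Y] [SecondCountableTopology Y] [MeasurableSpace Y] [BorelSpace Y]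
    {π : Measure Z → Y} (hπ : Measurable π) {σ : Y → Y → ℝ}
    (hσ : Continuous fun z : Y × Y => σ z.1 z.2) (h0 : ∀ y, σ y y = 0) {R : ℝ}
    (hR : ∀ y y', |σ y y'| ≤ R) {η : ℝ} (hη : 0 < η) :
    ∃ (n : ℕ) (f : Measure Z → Y), Measurable f ∧ IsLocal (K n) f ∧
      ∫ ω, σ (f ω) (π ω) ∂μ < η := by
  have : Nonempty Y := ⟨π 0⟩
  set u := TopologicalSpace.denseSeq Y
  have hu : ∀ y, ∃ j, σ (u j) y < η / 2 := fun y => by
    have h1 : IsOpen {y' | σ y' y < η / 2} :=
      isOpen_lt (hσ.comp (continuous_id.prodMk continuous_const)) continuous_const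
    obtain ⟨j, hj⟩ := (TopologicalSpace.denseRange_denseSeq Y).exists_mem_open h1
      ⟨y, by simp only [mem_ofPred_eq, h0]; positivity⟩
    exact ⟨j, hj⟩
  classical
  have hJ : Measurable fun ω => Nat.find (hu (π ω)) :=
    (measurable_find hu fun j => (isOpen_lt (hσ.comp (continuous_const.prodMk continuous_id))
      continuous_const).measurableSet).comp hπ
  have hR0 : 0 ≤ R := (abs_nonneg _).trans (hR (π 0) (π 0))
  obtain ⟨n, f, hf, hl, h1⟩ := exists_local_nat μ hK hm hU hJ
    (η := ENNReal.ofReal (η / (2 * (R + 1)))) (by simp only [ENNReal.ofReal_pos]; positivity)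
  refine ⟨n, fun ω => u (f ω), (measurable_of_countable u).comp hf, fun ω => by simp only [hl ω], ?_⟩
  have hS : MeasurableSet {ω | f ω ≠ Nat.find (hu (π ω))} := (measurableSet_eq_fun hf hJ).compl
  calc ∫ ω, σ (u (f ω)) (π ω) ∂μ
      ≤ ∫ ω, (η / 2 + {ω | f ω ≠ Nat.find (hu (π ω))}.indicator (fun _ => R) ω) ∂μ := by
        refine integral_mono (Integrable.of_bound (hσ.measurable.comp
          (((measurable_of_countable u).comp hf).prodMk hπ)).aestronglyMeasurable R
          (Eventually.of_forall fun ω => hR _ _))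
          ((integrable_const _).add ((integrable_const _).indicator hS)) fun ω => ?_
        by_cases h : f ω = Nat.find (hu (π ω))
        · have := Nat.find_spec (hu (π ω))
          simp only [h, ne_eq, mem_ofPred_eq, not_true_eq_false, not_false_eq_true,
            indicator_of_notMem, add_zero]
          exact this.le
        · have := (abs_le.1 (hR (u (f ω)) (π ω))).2
          simp only [ne_eq, mem_ofPred_eq, h, not_false_eq_true, indicator_of_mem]
          linarith
    _ = η / 2 + μ.real {ω | f ω ≠ Nat.find (hu (π ω))} * R := by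
        rw [integral_add (integrable_const _) ((integrable_const _).indicator hS),
          integral_indicator_const _ hS]
        simp
    _ < η := by
        have h2 : μ.real {ω | f ω ≠ Nat.find (hu (π ω))} ≤ η / (2 * (R + 1)) :=
          ENNReal.toReal_le_of_le_ofReal (by positivity) h1.le
        have h3 : η / (2 * (R + 1)) * R < η / 2 := by
          rw [div_mul_eq_mul_div, div_lt_div_iff₀ (by positivity) (by positivity)]
          nlinarith
        nlinarith

end Pool.Agent.MP_13bd65_an.H30
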